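import Pool.Agent.N879.QM.AllB
import Pool.Agent.J4.H50.EA.W11

set_option autoImplicit false

/-!
# Moments of quadratic Dirichlet `L`-functions with arbitrary weights on the discriminants

Let `s = ±1`, let `d` run over the fundamental discriminants of sign `s` with `1 < |d| < X`, and let `k ≥ 1`,
`0 < θ ≤ 1`. After at most `X^(1 - δ)` conductors have been removed (a set that depends on `s, k, θ, X` only, not on the
weights), we determine, for almost all shift vectors `α` in the cube `[-X^θ, X^θ]^k`, the moment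
`∑_d c(|d|) ∏_j L(1/2 + i α_j, χ_d)` with ARBITRARY bounded complex weights `c`:

* it equals, in mean square over the cube and uniformly in the weights, the short Dirichlet polynomial
  `∑_{n_1 ⋯ n_k ≤ Y} (∑_d c(|d|) χ_d(n_1 ⋯ n_k)) ∏_j n_j^(-1/2 - i α_j)` up to a relative error `Y^(-1/8)`,
  and its mean square is `∑_{n ≤ Y} τ_k(n) |∑_d c(|d|) χ_d(n)|² / n` up to the same error;
* **a criterion**: for bounded weights `c_X` and bounded numbers `ν_X` the asymptotic formula of the recipe of Conrey,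
  Farmer, Keating, Rubinstein and Snaith holds with the factor `ν_X`,
  `∑_d c_X(|d|) ∏_j L(1/2 + i α_j, χ_d) ~ ν_X (3/π²) X A_k(iα) ∏_{i ≤ j} ζ(1 + i α_i + i α_j)` (in measure on the cube),
  if and only if `∑_d (c_X(|d|) - ν_X) χ_d(n) = o(X)` for every fixed `n ≥ 1`. The condition does not depend on `k`
  and `θ`: the weights which satisfy the recipe for one order satisfy it for all orders;
* it is satisfied if `c_X - ν_X` is small on average along every arithmetic progression; so the recipe holds with the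
  factor `ν` for the discriminants whose absolute values lie in any set of integers which has density `ν` in all
  arithmetic progressions, and the moments twisted with `e(ϑ|d|)` are `o(X)` for irrational `ϑ`.
-/

namespace Pool.Agent.Results.MP_ea46f5_nt.ArbitraryWeights

open Complex MeasureTheory Filter Topology

noncomputable section

/-- The characters `χ_d` of the fundamental discriminants `d` of sign `s` with `|d| = q` (`q ≥ 2`): the real primitive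
characters modulo `q` with `χ(-1) = s`. -/
def chars (s : ℤ) (q : ℕ) : Set (DirichletCharacter ℂ q) :=
  {χ | χ.IsPrimitive ∧ χ ^ 2 = 1 ∧ χ (-1) = (s : ℂ)}

/-- The `L`-function of a Dirichlet character modulo `q ≥ 1` (the analytic continuation of `∑ χ(n) n^(-z)`). -/
def L {q : ℕ} (χ : DirichletCharacter ℂ q) (z : ℂ) : ℂ :=
  if h : q ≠ 0 then haveI : NeZero q := ⟨h⟩; DirichletCharacter.LFunction χ z else 0

/-- The weighted shifted moment: the sum of `c(|d|) ∏_j L(1/2 + i α_j, χ_d)` over the `d` of sign `s` with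
`2 ≤ |d| < X` and `|d|` not in `E`. -/
def moment {k : ℕ} (s : ℤ) (X : ℝ) (E : Finset ℕ) (c : ℕ → ℂ) (α : Fin k → ℝ) : ℂ :=
  ∑ q ∈ Finset.Ico 2 ⌈X⌉₊ \ E, c q * ∑ᶠ χ ∈ chars s q, ∏ j, L χ (1 / 2 + I * (α j : ℂ))

/-- The correlation of the weights with `d ↦ χ_d(n)`: the sum of `c(|d|) χ_d(n)` over the `d` of sign `s` with
`2 ≤ |d| < X`. -/
def corr (s : ℤ) (X : ℝ) (c : ℕ → ℂ) (n : ℕ) : ℂ :=
  ∑ q ∈ Finset.Ico 2 ⌈X⌉₊, c q * ∑ᶠ χ ∈ chars s q, χ (n : ZMod q)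

/-- The short Dirichlet polynomial: the sum of `corr(n_1 ⋯ n_k) ∏_j n_j^(-(1/2 + i α_j))` over the `n_j ≥ 1` with
`n_1 ⋯ n_k ≤ Y`. -/
def poly {k : ℕ} (s : ℤ) (X : ℝ) (c : ℕ → ℂ) (Y : ℕ) (α : Fin k → ℝ) : ℂ :=
  ∑ n ∈ Fintype.piFinset (fun _ : Fin k => Finset.Icc 1 Y) with ∏ j, n j ≤ Y,
    corr s X c (∏ j, n j) * ∏ j, (n j : ℂ) ^ (-(1 / 2 + I * (α j : ℂ)))

/-- The local factor of `A_k(z_1, …, z_k)` at the prime `p`. -/
def localFactor {k : ℕ} (z : Fin k → ℂ) (p : ℕ) : ℂ :=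
  (∏ i, ∏ j ∈ Finset.Ici i, (1 - (p : ℂ) ^ (-(1 + z i + z j)))) *
    (1 / 2 * ((∏ j, (1 - (p : ℂ) ^ (-(1 / 2 + z j)))⁻¹) + ∏ j, (1 + (p : ℂ) ^ (-(1 / 2 + z j)))⁻¹) + 1 / (p : ℂ)) *
    (1 + 1 / (p : ℂ))⁻¹

/-- The Euler product `A_k(z_1, …, z_k)`. -/
def A {k : ℕ} (z : Fin k → ℂ) : ℂ := ∏' p : Nat.Primes, localFactor z p

/-- `A_k(z) ∏_{i ≤ j} ζ(1 + z_i + z_j)`. -/
def mainTerm {k : ℕ} (z : Fin k → ℂ) : ℂ := A z * ∏ i, ∏ j ∈ Finset.Ici i, riemannZeta (1 + z i + z j)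

/-- The cube `[-A, A]^k`. -/
def cube (k : ℕ) (A : ℝ) : Set (Fin k → ℝ) := {α | ∀ j, |α j| ≤ A}

/-- The recipe for the weights `c_X` with the factor `ν_X`: for every `ε > 0` and all large `X` the shift vectors `α`
with `|α_j| ≤ X^θ` and `|∑_d c_X(|d|) ∏_j L(1/2 + i α_j, χ_d) - ν_X (3/π²) X A_k(iα) ∏ ζ(1 + i α_i + i α_j)| > ε X` form
a set of measure at most `ε X^(kθ)`. -/
def Recipe (k : ℕ) (s : ℤ) (θ : ℝ) (E : ℝ → Finset ℕ) (c : ℝ → ℕ → ℂ) (ν : ℝ → ℂ) : Prop :=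
  ∀ ε : ℝ, 0 < ε → ∃ X₁ : ℝ, ∀ X : ℝ, X₁ ≤ X →
    volume {α : Fin k → ℝ | α ∈ cube k (X ^ θ) ∧ ε * X < ‖moment s X (E X) (c X) α -
      ν X * ((3 / (Real.pi : ℂ) ^ 2) * X * mainTerm (fun j => I * (α j : ℂ)))‖} ≤ ENNReal.ofReal (ε * X ^ (k * θ))

lemma mainTerm_eq {k : ℕ} (z : Fin k → ℂ) : mainTerm z = Pool.Agent.N879.QM.MT z := by
  unfold mainTerm Pool.Agent.N879.QM.MT A Pool.Agent.N879.QM.Ak
  rw [← Pool.Agent.N879.QM.prod_Pr (fun i j => riemannZeta (1 + z i + z j))]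
  congr 1
  refine tprod_congr fun p => ?_
  unfold localFactor Pool.Agent.N879.QM.loc
  rw [← Pool.Agent.N879.QM.prod_Pr (fun i j => 1 - ((p : ℕ) : ℂ) ^ (-(1 + z i + z j)))]

lemma moment_eq {k : ℕ} (s : ℤ) (X : ℝ) (E : Finset ℕ) (c : ℕ → ℂ) (α : Fin k → ℝ) :
    moment s X E c α = ∑ q ∈ Pool.Agent.N879.QM.Q s X \ E, c q * ∏ j, Pool.Agent.N879.QM.LL s q
      (Pool.Agent.N879.QM.pt (α j)) := by
  classical
  have h1 : Pool.Agent.N879.QM.Q s X \ E =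
      (Finset.Ico 2 ⌈X⌉₊ \ E).filter (Pool.Agent.N879.QM.Is s) := by
    ext q
    unfold Pool.Agent.N879.QM.Q
    simp only [Finset.mem_sdiff, Finset.mem_filter]
    tauto
  rw [h1, Finset.sum_filter]
  refine Finset.sum_congr rfl fun q hq => ?_
  have hq2 : 2 ≤ q := (Finset.mem_Ico.1 (Finset.mem_sdiff.1 hq).1).1
  split_ifs with h
  · have h2 : chars s q = {Pool.Agent.N879.QM.ch s q} :=
      Pool.Agent.N879.QM.Fq_eq Pool.Agent.N879.QM.t_UNI h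
    rw [h2, finsum_mem_singleton]
    rfl
  · have h2 : chars s q = ∅ := Pool.Agent.N879.QM.Fq_empty hq2 h
    rw [h2, finsum_mem_empty, mul_zero]

lemma corr_eq (s : ℤ) (X : ℝ) (c : ℕ → ℂ) (n : ℕ) : corr s X c n = Pool.Agent.J4.H50.EA.Sc s X c n := by
  classical
  unfold corr Pool.Agent.J4.H50.EA.Sc Pool.Agent.N879.QM.Q
  rw [Finset.sum_filter]
  refine Finset.sum_congr rfl fun q hq => ?_
  have hq2 : 2 ≤ q := (Finset.mem_Ico.1 hq).1
  split_ifs with h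
  · have h2 : chars s q = {Pool.Agent.N879.QM.ch s q} :=
      Pool.Agent.N879.QM.Fq_eq Pool.Agent.N879.QM.t_UNI h
    rw [h2, finsum_mem_singleton]
    rfl
  · have h2 : chars s q = ∅ := Pool.Agent.N879.QM.Fq_empty hq2 h
    rw [h2, finsum_mem_empty, mul_zero]

lemma poly_eq {k : ℕ} (s : ℤ) (X : ℝ) (c : ℕ → ℂ) (Y : ℕ) (α : Fin k → ℝ) :
    poly s X c Y α = Pool.Agent.J4.H50.EA.DY k s X c Y α := by
  unfold poly Pool.Agent.J4.H50.EA.DY Pool.Agent.N879.QM.tup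
  refine Finset.sum_congr ?_ fun n _ => ?_
  · ext n
    simp only [Finset.mem_filter]
    rfl
  · rw [corr_eq]
    rfl

lemma cube_restrict (k : ℕ) (A : ℝ) :
    (volume : Measure (Fin k → ℝ)).restrict (cube k A) = Pool.Agent.N879.QM.mS k A := by
  rw [Pool.Agent.J4.H50.EA.mS_eq]
  congr 1
  ext α
  simp only [cube, Set.mem_ofPred_eq, Set.mem_univ_pi, Set.mem_Icc, abs_le]

lemma recipe_iff (k : ℕ) (s : ℤ) (θ : ℝ) (m : ℕ) (c : ℝ → ℕ → ℂ) (ν : ℝ → ℂ) :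
    Recipe k s θ (fun X => Pool.Agent.N879.QM.Ex s X (X ^ θ) (θ * (1 / m) / (8 * k))) c ν ↔
      Pool.Agent.J4.H50.EA.Sm k θ (fun X β => Pool.Agent.J4.H50.EA.FW k s θ m (c X) X β -
        ν X * (((Pool.Agent.N879.QM.c0 * X : ℝ) : ℂ) * Pool.Agent.N879.QM.MT (Pool.Agent.N879.QM.im β))) := by
  unfold Recipe Pool.Agent.J4.H50.EA.Sm
  refine forall₂_congr fun ε _ => exists_congr fun X₁ => forall₂_congr fun X _ => ?_
  rw [← Pool.Agent.N879.QM.vol_mS]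
  have h1 : {α : Fin k → ℝ | α ∈ cube k (X ^ θ) ∧ ε * X < ‖moment s X
      (Pool.Agent.N879.QM.Ex s X (X ^ θ) (θ * (1 / m) / (8 * k))) (c X) α -
      ν X * ((3 / (Real.pi : ℂ) ^ 2) * X * mainTerm (fun j => I * (α j : ℂ)))‖} =
      {α : Fin k → ℝ | (∀ j, |α j| ≤ X ^ θ) ∧ α ∈ {β | ε * X < ‖Pool.Agent.J4.H50.EA.FW k s θ m (c X) X β -
        ν X * (((Pool.Agent.N879.QM.c0 * X : ℝ) : ℂ) * Pool.Agent.N879.QM.MT (Pool.Agent.N879.QM.im β))‖}} := by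
    ext α
    have e2 : (3 / (Real.pi : ℂ) ^ 2) * X = ((Pool.Agent.N879.QM.c0 * X : ℝ) : ℂ) := by
      unfold Pool.Agent.N879.QM.c0
      push_cast
      ring
    simp only [Set.mem_ofPred_eq, moment_eq, e2, mainTerm_eq]
    rfl
  rw [h1]

/-- For every `k ≥ 1`, every sign `s` and every `0 < θ ≤ 1` there are sets `E(X)` of at most `X^(1 - δ)` conductors
(`X ≥ X₀`), depending on `s, k, θ, X` only, with the following properties.

(1) For all weights `c` with `|c| ≤ 1` and all `1 ≤ Y ≤ X^δ`, the weighted moment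
`∑_d c(|d|) ∏_j L(1/2 + i α_j, χ_d)` over the `d` of sign `s` with `2 ≤ |d| < X`, `|d| ∉ E(X)`, differs from the
polynomial `∑_{n_1 ⋯ n_k ≤ Y} corr(n_1 ⋯ n_k) ∏_j n_j^(-1/2 - i α_j)` by at most `C X² Y^(-1/8)` in mean square over
the cube `[-X^θ, X^θ]^k`, and the mean square of the moment itself is `∑_{n ≤ Y} τ_k(n) |corr(n)|² / n` up to
`C X² Y^(-1/8)`; here `corr(n) = ∑_d c(|d|) χ_d(n)` and `τ_k(n)` is the number of `(n_1, …, n_k)` with product `n`.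

(2) For all bounded weights `c_X` and bounded numbers `ν_X`, the recipe holds for the weights `c_X` with the factor
`ν_X` if and only if `∑_d (c_X(|d|) - ν_X) χ_d(n) = o(X)` for every `n ≥ 1`.

(3) It holds if `∑_{q < X, q ≡ a (M)} (c_X(q) - ν_X) = o(X)` for all `M ≥ 1` and all `a`.

(4) For irrational `ϑ` it holds for the weights `e(ϑ|d|)` with the factor `0`. -/
theorem result (k : ℕ) (hk : 1 ≤ k) (s : ℤ) (hs : s = 1 ∨ s = -1) (θ : ℝ) (hθ : 0 < θ) (hθ1 : θ ≤ 1) :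
    ∃ (E : ℝ → Finset ℕ) (δ C X₀ : ℝ), 0 < δ ∧
      (∀ X : ℝ, X₀ ≤ X → ((E X).card : ℝ) ≤ X ^ (1 - δ)) ∧
      (∀ X : ℝ, X₀ ≤ X → ∀ c : ℕ → ℂ, (∀ q, ‖c q‖ ≤ 1) → ∀ Y : ℕ, 1 ≤ Y → (Y : ℝ) ≤ X ^ δ →
        ∫ α in cube k (X ^ θ), ‖moment s X (E X) c α - poly s X c Y α‖ ^ 2 ≤
          C * (2 * X ^ θ) ^ k * (X ^ 2 * (Y : ℝ) ^ (-(1 / 8) : ℝ)) ∧
        |(∫ α in cube k (X ^ θ), ‖moment s X (E X) c α‖ ^ 2) -
          (2 * X ^ θ) ^ k * ∑ n ∈ Finset.Icc 1 Y, ((Nat.finMulAntidiag k n).card : ℝ) * (‖corr s X c n‖ ^ 2 / n)| ≤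
          C * (2 * X ^ θ) ^ k * (X ^ 2 * (Y : ℝ) ^ (-(1 / 8) : ℝ))) ∧
      (∀ (c : ℝ → ℕ → ℂ) (ν : ℝ → ℂ) (B : ℝ), (∀ X q, ‖c X q‖ ≤ B) → (∀ X, ‖ν X‖ ≤ B) →
        (Recipe k s θ E c ν ↔ ∀ n : ℕ, 1 ≤ n →
          Tendsto (fun X : ℝ => (corr s X (c X) n - ν X * corr s X (fun _ => 1) n) / (X : ℂ)) atTop (𝓝 0)) ∧
        ((∀ M : ℕ, 1 ≤ M → ∀ a : ℕ, Tendsto (fun X : ℝ =>
          (∑ q ∈ (Finset.range ⌈X⌉₊).filter (fun q => q % M = a), (c X q - ν X)) / (X : ℂ)) atTop (𝓝 0)) →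
          Recipe k s θ E c ν)) ∧
      (∀ ϑ : ℝ, Irrational ϑ →
        Recipe k s θ E (fun _ q => Complex.exp (2 * Real.pi * I * (ϑ * q))) (fun _ => 0)) := by
  have hU := Pool.Agent.N879.QM.t_UNI
  have hA := Pool.Agent.N879.QM.t_AVG hU
  have hD := Pool.Agent.N879.QM.t_DIAG hA
  have hG := Pool.Agent.N879.QM.t_GK hU
  have hP1 := Pool.Agent.N879.QM.t_P1
  have hP2 := Pool.Agent.N879.QM.t_P2 hG
  have hM := Pool.Agent.N879.QM.t_MVG
  have hB := Pool.Agent.N879.QM.t_BLK hM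
  have hL := Pool.Agent.N879.QM.t_LSB
  have hO := Pool.Agent.N879.QM.t_ONE
  have hPV := Pool.Agent.N879.QM.t_PVI
  have hHB := Pool.Agent.N879.QM.t_HBG
  have hWQ := Pool.Agent.N879.QM.t_WQ
  have hMID := Pool.Agent.N879.QM.t_MID hB hHB hWQ
  have hBP := Pool.Agent.N879.QM.t_BIGP hB hL hPV
  have hB1 := Pool.Agent.N879.QM.t_BIG1P hB hO hPV
  have hAF := Pool.Agent.N879.QM.t_AFS
  have hC := Pool.Agent.N879.QM.t_CTS
  have hMB := Pool.Agent.N879.QM.t_MB hHB hB1 hAF hC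
  have hOP := Pool.Agent.N879.QM.t_OPB hP2 hMID hBP hAF hC
  have hR := Pool.Agent.N879.QM.t_RMV hP1
  have hTE := Pool.Agent.N879.QM.t_TEL
  have hE := Pool.Agent.N879.QM.t_EUL
  have hZR := Pool.Agent.N879.QM.t_ZR Pool.Agent.N879.QM.t_ZET hE
  have hFL := Pool.Agent.N879.QM.t_FL
  have hCO := Pool.Agent.N879.QM.t_COEF hFL
  obtain ⟨m, hm, δ₁, X₁, hδ₁, h1⟩ := Pool.Agent.J4.H50.EA.mainE hMB hR hP1 hOP hTE hC hD hCO hZR hE
    Pool.Agent.N879.QM.t_NS k s θ hk hs hθ hθ1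
  obtain ⟨C₂, δ₂, X₂, hC₂, hδ₂, hX₂, h2⟩ := Pool.Agent.J4.H50.EA.approx hMB hP1 hOP hTE hC hA k θ hk hθ hθ1 m hm
  obtain ⟨C₃, δ₃, X₃, hC₃, hδ₃, hX₃, h3⟩ := Pool.Agent.J4.H50.EA.meansq hMB hP1 hOP hTE hC hA k θ hk hθ hθ1 m hm
  have hW : Pool.Agent.J4.H50.EA.Sm k θ (fun X β => Pool.Agent.J4.H50.EA.FW k s θ m (fun _ => 1) X β -
      ((Pool.Agent.N879.QM.c0 * X : ℝ) : ℂ) * Pool.Agent.N879.QM.MT (Pool.Agent.N879.QM.im β)) := by
    refine Pool.Agent.J4.H50.EA.Sm.of_pow hδ₁ (X₀ := X₁) fun X hX => ?_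
    have h4 := (h1 X hX).2
    unfold Pool.Agent.J4.H50.EA.FW
    simp only [one_mul]
    exact h4
  obtain ⟨δ, hδ⟩ : ∃ δ : ℝ, δ = min δ₁ (min δ₂ δ₃) := ⟨_, rfl⟩
  have hd1 : δ ≤ δ₁ := by rw [hδ]; exact min_le_left _ _
  have hd2 : δ ≤ δ₂ := by rw [hδ]; exact (min_le_right _ _).trans (min_le_left _ _)
  have hd3 : δ ≤ δ₃ := by rw [hδ]; exact (min_le_right _ _).trans (min_le_right _ _)
  have hd0 : 0 < δ := by rw [hδ]; exact lt_min hδ₁ (lt_min hδ₂ hδ₃)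
  have hAP : ∀ (c : ℝ → ℕ → ℂ) (ν : ℝ → ℂ) (B : ℝ), (∀ X q, ‖c X q‖ ≤ B) → (∀ X, ‖ν X‖ ≤ B) →
      Pool.Agent.J4.H50.EA.APnull (fun X q => c X q - ν X) → Recipe k s θ
        (fun X => Pool.Agent.N879.QM.Ex s X (X ^ θ) (θ * (1 / m) / (8 * k))) c ν := fun c ν B hc hν h =>
    (recipe_iff k s θ m c ν).2 (Pool.Agent.J4.H50.EA.crit_ap hMB hP1 hOP hTE hC hA k θ hk hθ hθ1 m hm s hs hW c ν B
      hc hν h)
  refine ⟨fun X => Pool.Agent.N879.QM.Ex s X (X ^ θ) (θ * (1 / m) / (8 * k)), δ, C₂ + C₃,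
    max (max 1 X₁) (max X₂ X₃), hd0, fun X hX => ?_, fun X hX c hc Y hY1 hYX => ?_, fun c ν B hc hν => ⟨?_, ?_⟩,
    fun ϑ hϑ => ?_⟩
  · have hX1 : 1 ≤ X := (le_max_left _ _).trans ((le_max_left _ _).trans hX)
    refine (h1 X ((le_max_right _ _).trans ((le_max_left _ _).trans hX))).1.trans ?_
    exact Real.rpow_le_rpow_of_exponent_le hX1 (by linarith)
  · have hX1 : 1 ≤ X := (le_max_left _ _).trans ((le_max_left _ _).trans hX)
    have hX0 : 0 < X := by linarith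
    have h4 := h2 s X c Y hs ((le_max_left _ _).trans ((le_max_right _ _).trans hX)) hc hY1
      (hYX.trans (Real.rpow_le_rpow_of_exponent_le hX1 hd2))
    have h5 := h3 s X c Y hs ((le_max_right _ _).trans ((le_max_right _ _).trans hX)) hc hY1
      (hYX.trans (Real.rpow_le_rpow_of_exponent_le hX1 hd3))
    have h6 : 0 ≤ (2 * X ^ θ) ^ k * (X ^ 2 * (Y : ℝ) ^ (-(1 / 8) : ℝ)) := by positivity
    have h7 := mul_nonneg hC₂.le h6
    have h8 := mul_nonneg hC₃.le h6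
    simp only [cube_restrict, moment_eq, poly_eq, corr_eq]
    constructor
    · refine h4.trans ?_
      linarith
    · refine h5.trans ?_
      linarith
  · rw [recipe_iff, Pool.Agent.J4.H50.EA.crit hMB hP1 hOP hTE hC hA k θ hk hθ hθ1 m hm s hs hW c ν B hc hν]
    simp only [corr_eq]
  · exact hAP c ν B hc hν
  · refine hAP _ _ 1 (fun _ q => ?_) (fun _ => by rw [norm_zero]; exact zero_le_one) ?_
    · have e1 : (2 * Real.pi * I * (ϑ * q) : ℂ) = ((2 * Real.pi * ϑ * q : ℝ) : ℂ) * I := by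
        push_cast
        ring
      rw [e1, Complex.norm_exp_ofReal_mul_I]
    · simp only [sub_zero]
      exact Pool.Agent.J4.H50.EA.add_null hϑ

end

end Pool.Agent.Results.MP_ea46f5_nt.ArbitraryWeights
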