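import Pool.Agent.N879.QM.AllB
import Pool.Agent.J4.H39.CM.Bo
import Pool.Agent.J4.H39.CM.Lin
import Pool.Agent.J4.H39.CM.Ser2
import Pool.Agent.J4.H39.CM.Zm
import Pool.Agent.J4.H39.CM.Cc

set_option autoImplicit false

/-!
# The circle method for the central values of quadratic Dirichlet `L`-functions

Let `s = ±1` and let `central s q` be `L(1/2, χ_d)` if `d = s q` is a fundamental discriminant (`q ≥ 2`), and `0`
otherwise. We show that the function `q ↦ central s q` is, up to a power saving and UNIFORMLY in the frequency, the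
almost periodic function `∑_θ (a(θ) log q + b(θ)) e(θ q)`, where `θ` runs over the rationals in `[0, 1)`, with explicit
`a(θ)` (the Fourier coefficients of a product of local weights) and `|a(θ)| + |b(θ)| ≤ C_ε den(θ)^(-1+ε)`.
The consequences at the CENTRAL point are: additively twisted first moments with a power saving, products of `t ≥ 3`
central values over the solutions of linear equations between the discriminants, in particular over
`q_1 + … + q_t = N` with a positive singular series which is an Euler product, correlations for almost all shifts,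
bilinear forms and sumsets, Bohr sets and Beatty sequences.
-/

namespace Pool.Agent.Results.MP_ea46f5_nt.CircleMethod

open Complex Filter Topology

noncomputable section

/-- The characters `χ_d` of the fundamental discriminants `d` of sign `s` with `|d| = q` (`q ≥ 2`): the real primitive
characters modulo `q` with `χ(-1) = s`. -/
def chars (s : ℤ) (q : ℕ) : Set (DirichletCharacter ℂ q) :=
  {χ | χ.IsPrimitive ∧ χ ^ 2 = 1 ∧ χ (-1) = (s : ℂ)}

/-- The `L`-function of a Dirichlet character modulo `q ≥ 1` (the analytic continuation of `∑ χ(n) n^(-z)`). -/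
def L {q : ℕ} (χ : DirichletCharacter ℂ q) (z : ℂ) : ℂ :=
  if h : q ≠ 0 then haveI : NeZero q := ⟨h⟩; DirichletCharacter.LFunction χ z else 0

/-- The central value: `L(1/2, χ_d)` if `d = s q` is a fundamental discriminant and `q ≥ 2`, and `0` otherwise. -/
def central (s : ℤ) (q : ℕ) : ℂ := if 2 ≤ q then ∑ᶠ χ ∈ chars s q, L χ (1 / 2) else 0

/-- `e(x) = exp(2πix)`. -/
def e (x : ℝ) : ℂ := Complex.exp (2 * Real.pi * x * I)

/-- `⌊N^(1/m)⌋`. -/
def root (m N : ℕ) : ℕ := ⌊(N : ℝ) ^ (1 / (m : ℝ))⌋₊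

/-- The approximation of level `W`: the sum of `(a(θ) log q + b(θ)) e(θ q)` over the rationals `θ = r/n` in `[0, 1)`,
in lowest terms, with `n ≤ W`. -/
def model (a b : ℚ → ℂ) (W q : ℕ) : ℂ :=
  ∑ n ∈ Finset.Icc 1 W, ∑ r ∈ (Finset.range n).filter (fun r => r.Coprime n),
    (a ((r : ℚ) / n) * Real.log q + b ((r : ℚ) / n)) * e ((((r : ℚ) / n : ℚ) : ℝ) * q)

/-- The `x ∈ ℕ^t` with `x_i ≥ 1` and `x_1 + … + x_t = N`. -/
def solutions (t N : ℕ) : Finset (Fin t → ℕ) :=
  (Fintype.piFinset (fun _ : Fin t => Finset.Icc 1 N)).filter (fun x => ∑ i, x i = N)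

/-- The part with denominator `n` of the main term: the sum of
`e(rN/n) ∑_{x_1 + … + x_t = N} ∏_i (a(r/n) log x_i + b(r/n))` over the `r` modulo `n` coprime to `n`. -/
def singularTerm (a b : ℚ → ℂ) (t N n : ℕ) : ℂ :=
  ∑ r ∈ (Finset.range n).filter (fun r => r.Coprime n), e ((((r : ℚ) / n : ℚ) : ℝ) * N) *
    ∑ x ∈ solutions t N, ∏ i, (a ((r : ℚ) / n) * Real.log (x i) + b ((r : ℚ) / n))

/-- The main term of the correlations with the shift `h`: the sum of
`e(-rh/n) ∑_{q ≤ N - h} (a(r/n) log q + b(r/n)) conj(a(r/n) log(q + h) + b(r/n))` over the `r/n` in `[0, 1)`, in lowest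
terms, with `n ≤ W`. -/
def correlation (a b : ℚ → ℂ) (W N h : ℕ) : ℂ :=
  ∑ n ∈ Finset.Icc 1 W, ∑ r ∈ (Finset.range n).filter (fun r => r.Coprime n),
    e (-((((r : ℚ) / n : ℚ) : ℝ) * h)) * ∑ q ∈ Finset.Icc 1 (N - h),
      (a ((r : ℚ) / n) * Real.log q + b ((r : ℚ) / n)) *
        (starRingEnd ℂ) (a ((r : ℚ) / n) * Real.log ((q + h : ℕ) : ℝ) + b ((r : ℚ) / n))

/-- The local weight at `2` of the discriminant `D`: `(1/4) (1 - χ_D(2)/√2)⁻¹` if `D ≡ 1 (4)` or `D ≡ 8, 12 (16)`,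
and `0` otherwise. -/
def weightTwo (D : ℤ) : ℝ :=
  if D % 8 = 1 then 1 / 4 * (1 - 1 / √2)⁻¹ else if D % 8 = 5 then 1 / 4 * (1 + 1 / √2)⁻¹
  else if D % 16 = 8 ∨ D % 16 = 12 then 1 / 4 else 0

/-- The local weight at the odd prime `p` of the discriminant `D`: `1 + (D/p)/√p` if `p ∤ D`, `1 - 1/p` if `p ∣ D`
and `p² ∤ D`, and `0` if `p² ∣ D`. -/
def weight (p : ℕ) (D : ℤ) : ℝ :=
  if (p : ℤ) ^ 2 ∣ D then 0 else if (p : ℤ) ∣ D then 1 - 1 / (p : ℝ) else 1 + (jacobiSym D p : ℝ) / √p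

/-- The odd primes `≤ z`. -/
def oddPrimes (z : ℕ) : Finset ℕ := (Finset.Icc 3 z).filter Nat.Prime

/-- The product of the local weights of `s q` at the primes `≤ z`. -/
def weights (s : ℤ) (z q : ℕ) : ℝ := weightTwo (s * q) * ∏ p ∈ oddPrimes z, weight p (s * q)

/-- The average of `w(s x_1) ⋯ w(s x_t)` over the solutions modulo `M` of `x_1 + … + x_t ≡ N`. -/
def density (t M : ℕ) (w : ℤ → ℝ) (s : ℤ) (N : ℕ) : ℝ :=
  (∑ x ∈ Fintype.piFinset (fun _ : Fin t => Finset.range M),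
    if (∑ i, x i) % M = N % M then ∏ i, w (s * x i) else 0) / (M : ℝ) ^ (t - 1)

/-- The product of the local densities at the primes `≤ z`. -/
def densities (t : ℕ) (s : ℤ) (N z : ℕ) : ℝ :=
  density t 64 weightTwo s N * ∏ p ∈ oddPrimes z, density t (p ^ 2) (weight p) s N

/-- The average of `w(s a) w(s (a + h))` over the `a` modulo `M`. -/
def corrDensity (M : ℕ) (w : ℤ → ℝ) (s : ℤ) (h : ℕ) : ℝ :=
  (∑ a ∈ Finset.range M, w (s * a) * w (s * ((a + h : ℕ) : ℤ))) / M

/-- The product of the local correlations at the primes `≤ z`. -/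
def corrDensities (s : ℤ) (h z : ℕ) : ℝ :=
  corrDensity 64 weightTwo s h * ∏ p ∈ oddPrimes z, corrDensity (p ^ 2) (weight p) s h

/-- The correlation `∑_{q ≤ N - h} central s q · central s (q + h)`. -/
def corrSum (s : ℤ) (N h : ℕ) : ℂ := ∑ q ∈ Finset.Icc 1 (N - h), central s q * central s (q + h)

open Pool.Agent.J4.H39.CM in
lemma e_eq : e = Pool.Agent.J4.H39.CM.e := rfl

lemma root_eq : root = Pool.Agent.J4.H39.CM.cut := rfl

lemma central_eq (s : ℤ) (q : ℕ) : central s q = Pool.Agent.J4.H39.CM.L1 s q := by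
  classical
  unfold central Pool.Agent.J4.H39.CM.L1
  by_cases h : Pool.Agent.N879.QM.Is s q
  · have h1 : chars s q = {Pool.Agent.N879.QM.ch s q} :=
      Pool.Agent.N879.QM.Fq_eq Pool.Agent.N879.QM.t_UNI h
    rw [if_pos h.1, if_pos h, h1, finsum_mem_singleton]
    rfl
  · rw [if_neg h]
    by_cases hq : 2 ≤ q
    · have h2 : chars s q = ∅ := Pool.Agent.N879.QM.Fq_empty hq h
      rw [if_pos hq, h2, finsum_mem_empty]
    · rw [if_neg hq]

lemma central_zero (s : ℤ) : central s 0 = 0 := by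
  unfold central
  rw [if_neg (by norm_num)]

/-- sums over `range (N + 1)` of functions vanishing at `0` -/
lemma sum_range {M : Type*} [AddCommMonoid M] (f : ℕ → M) (h : f 0 = 0) (N : ℕ) :
    ∑ q ∈ Finset.range (N + 1), f q = ∑ q ∈ Finset.Icc 1 N, f q := by
  rw [Finset.range_eq_Ico, Finset.sum_eq_sum_Ico_succ_bot (by omega), h, zero_add]
  refine Finset.sum_congr ?_ fun _ _ => rfl
  ext a
  rw [Finset.mem_Ico, Finset.mem_Icc]
  omega

lemma model_eq (a b : ℚ → ℂ) (W : ℕ) {q : ℕ} (hq : q ≠ 0) :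
    model a b W q = Pool.Agent.J4.H39.CM.Gm (Pool.Agent.J4.H39.CM.Fr W) a b q := by
  unfold model Pool.Agent.J4.H39.CM.Gm
  rw [if_neg hq, Pool.Agent.J4.H39.CM.Fr_sum (fun θ => (a θ * Real.log q + b θ) *
    Pool.Agent.J4.H39.CM.e ((θ : ℝ) * q)) W, sum_range _ (by simp)]
  rfl

lemma weightTwo_eq (s : ℤ) (hs : s = 1 ∨ s = -1) (q : ℕ) :
    Pool.Agent.J4.H39.CM.A2 s q = weightTwo (s * q) :=
  Pool.Agent.J4.H39.CM.A2_eq s hs q

lemma weight_eq (s : ℤ) (hs : s = 1 ∨ s = -1) {p : ℕ} (hp : p.Prime) (q : ℕ) :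
    Pool.Agent.J4.H39.CM.Fp s p q = weight p (s * q) := by
  have hd : ∀ m : ℕ, (m : ℤ) ∣ s * q ↔ m ∣ q := by
    intro m
    rcases hs with rfl | rfl
    · rw [one_mul]
      exact Int.natCast_dvd_natCast
    · rw [neg_one_mul, dvd_neg]
      exact Int.natCast_dvd_natCast
  have h1 : ((p : ℤ) ^ 2 ∣ s * q) ↔ p ^ 2 ∣ q := by
    have := hd (p ^ 2)
    push_cast at this
    exact this
  have h2 := hd p
  unfold Pool.Agent.J4.H39.CM.Fp weight
  by_cases hc1 : p ^ 2 ∣ q
  · rw [if_pos hc1, if_pos (h1.2 hc1), zero_mul, zero_mul]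
  · rw [if_neg hc1, if_neg (fun h => hc1 (h1.1 h)), one_mul]
    by_cases hc2 : p ∣ q
    · have hj : Pool.Agent.H306R2.RZ.js (s * (q : ℤ)) p = 0 := by
        unfold Pool.Agent.H306R2.RZ.js
        have h3 : jacobiSym (s * (q : ℤ)) p = 0 := by
          have : Fact p.Prime := ⟨hp⟩
          rw [← jacobiSym.legendreSym.to_jacobiSym]
          exact (legendreSym.eq_zero_iff p _).2 ((ZMod.intCast_zmod_eq_zero_iff_dvd _ _).2 (h2.2 hc2))
        rw [h3]
        simp
      rw [if_pos hc2, if_pos (h2.2 hc2), hj, zero_div, add_zero, mul_one]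
    · rw [if_neg hc2, if_neg (fun h => hc2 (h2.1 h)), sub_zero, one_mul]
      rfl

lemma Pz_prime (z : ℕ) : (Pool.Agent.J4.H39.CM.Pz z).primeFactors = oddPrimes z := by
  unfold Pool.Agent.J4.H39.CM.Pz oddPrimes
  exact Nat.primeFactors_prod fun p hp => (Finset.mem_filter.1 hp).2

lemma SG_two (s : ℤ) (hs : s = 1 ∨ s = -1) (t N : ℕ) :
    Pool.Agent.J4.H39.CM.SG t 64 (Pool.Agent.J4.H39.CM.A2 s) N = density t 64 weightTwo s N := by
  unfold Pool.Agent.J4.H39.CM.SG density
  simp only [weightTwo_eq s hs]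

lemma SG_odd (s : ℤ) (hs : s = 1 ∨ s = -1) (t N : ℕ) {p : ℕ} (hp : p.Prime) :
    Pool.Agent.J4.H39.CM.SG t (p ^ 2) (Pool.Agent.J4.H39.CM.Fp s p) N = density t (p ^ 2) (weight p) s N := by
  unfold Pool.Agent.J4.H39.CM.SG density
  simp only [weight_eq s hs hp]

lemma densities_eq (s : ℤ) (hs : s = 1 ∨ s = -1) (t N z : ℕ) : densities t s N z =
    Pool.Agent.J4.H39.CM.SG t 64 (Pool.Agent.J4.H39.CM.A2 s) N *
      ∏ p ∈ (Pool.Agent.J4.H39.CM.Pz z).primeFactors,
        Pool.Agent.J4.H39.CM.SG t (p ^ 2) (Pool.Agent.J4.H39.CM.Fp s p) N := by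
  unfold densities
  rw [Pz_prime, SG_two s hs]
  congr 1
  refine Finset.prod_congr rfl fun p hp => ?_
  rw [SG_odd s hs t N (Finset.mem_filter.1 hp).2]

lemma corrDensities_eq (s : ℤ) (hs : s = 1 ∨ s = -1) (h z : ℕ) : corrDensities s h z =
    Pool.Agent.J4.H39.CM.CZ s z h := by
  unfold corrDensities Pool.Agent.J4.H39.CM.CZ
  rw [Pz_prime]
  congr 1
  · unfold corrDensity Pool.Agent.J4.H39.CM.CG
    simp only [weightTwo_eq s hs]
  · refine Finset.prod_congr rfl fun p hp => ?_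
    unfold corrDensity Pool.Agent.J4.H39.CM.CG
    simp only [weight_eq s hs (Finset.mem_filter.1 hp).2]

lemma corrSum_eq (s : ℤ) (N h : ℕ) : corrSum s N h = ∑ q ∈ Finset.Icc 1 (N - h),
    Pool.Agent.J4.H39.CM.L1 s q * Pool.Agent.J4.H39.CM.L1 s (q + h) := by
  unfold corrSum
  simp only [central_eq]

lemma weights_eq (s : ℤ) (hs : s = 1 ∨ s = -1) (z q : ℕ) :
    weights s z q = Pool.Agent.J4.H39.CM.Ph s (Pool.Agent.J4.H39.CM.Pz z) q := by
  unfold weights Pool.Agent.J4.H39.CM.Ph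
  rw [Pz_prime, weightTwo_eq s hs]
  congr 1
  refine Finset.prod_congr rfl fun p hp => ?_
  rw [weight_eq s hs (Finset.mem_filter.1 hp).2]

/-- sums over the solutions of `q_1 + … + q_t = N` of functions which vanish if some `q_i = 0` -/
lemma sum_solutions (t N : ℕ) (F : (Fin t → ℕ) → ℂ) (hF : ∀ x, (∃ i, x i = 0) → F x = 0) :
    ∑ x ∈ Fintype.piFinset (fun _ : Fin t => Finset.range (N + 1)), (if ∑ i, x i = N then F x else 0) =
      ∑ x ∈ solutions t N, F x := by
  classical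
  rw [← Finset.sum_filter]
  unfold solutions
  symm
  refine Finset.sum_subset ?_ ?_
  · intro x hx
    rw [Finset.mem_filter, Fintype.mem_piFinset] at hx ⊢
    refine ⟨fun i => ?_, hx.2⟩
    have := Finset.mem_Icc.1 (hx.1 i)
    rw [Finset.mem_range]
    omega
  · intro x hx hx'
    rw [Finset.mem_filter, Fintype.mem_piFinset] at hx hx'
    apply hF
    by_contra hcon
    push Not at hcon
    apply hx'
    refine ⟨fun i => ?_, hx.2⟩
    have h1 := Finset.mem_range.1 (hx.1 i)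
    have h2 := hcon i
    rw [Finset.mem_Icc]
    omega

lemma central_sum (s : ℤ) (t N : ℕ) :
    ∑ x ∈ Fintype.piFinset (fun _ : Fin t => Finset.range (N + 1)),
      (if ∑ i, x i = N then ∏ i, Pool.Agent.J4.H39.CM.L1 s (x i) else 0) =
      ∑ x ∈ solutions t N, ∏ i, central s (x i) := by
  rw [sum_solutions t N (fun x => ∏ i, Pool.Agent.J4.H39.CM.L1 s (x i))]
  · simp only [central_eq]
  · rintro x ⟨i, hi⟩
    refine Finset.prod_eq_zero (Finset.mem_univ i) ?_
    rw [hi, ← central_eq, central_zero]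

lemma J_eq (s : ℤ) (B : Fin 4 → ℝ) (t : ℕ) (θ : ℚ) (N : ℕ) : Pool.Agent.J4.H39.CM.J s B t θ N =
    ∑ x ∈ solutions t N, ∏ i, (Pool.Agent.J4.H39.CM.c1 s θ * Real.log (x i) + Pool.Agent.J4.H39.CM.c0 s B θ) := by
  classical
  unfold Pool.Agent.J4.H39.CM.J
  have h1 : ∀ x : Fin t → ℕ, (if (∑ i, x i = N ∧ ∀ i, x i ≠ 0) then
      ∏ i, (Pool.Agent.J4.H39.CM.c1 s θ * Real.log (x i) + Pool.Agent.J4.H39.CM.c0 s B θ) else 0) =
      if ∑ i, x i = N then (if ∀ i, x i ≠ 0 then
        ∏ i, (Pool.Agent.J4.H39.CM.c1 s θ * Real.log (x i) + Pool.Agent.J4.H39.CM.c0 s B θ) else 0) else 0 := by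
    intro x
    by_cases h2 : ∑ i, x i = N
    · by_cases h3 : ∀ i, x i ≠ 0
      · rw [if_pos ⟨h2, h3⟩, if_pos h2, if_pos h3]
      · rw [if_neg (fun h => h3 h.2), if_pos h2, if_neg h3]
    · rw [if_neg (fun h => h2 h.1), if_neg h2]
  simp only [h1]
  rw [sum_solutions t N (fun x => if ∀ i, x i ≠ 0 then
        ∏ i, (Pool.Agent.J4.H39.CM.c1 s θ * Real.log (x i) + Pool.Agent.J4.H39.CM.c0 s B θ) else 0)]
  · refine Finset.sum_congr rfl fun x hx => ?_
    rw [if_pos]
    intro i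
    unfold solutions at hx
    rw [Finset.mem_filter, Fintype.mem_piFinset] at hx
    have := Finset.mem_Icc.1 (hx.1 i)
    omega
  · rintro x ⟨i, hi⟩
    rw [if_neg]
    intro h
    exact h i hi

lemma term_eq (s : ℤ) (B : Fin 4 → ℝ) (t N n : ℕ) : Pool.Agent.J4.H39.CM.MTb s B t N n =
    singularTerm (Pool.Agent.J4.H39.CM.c1 s) (Pool.Agent.J4.H39.CM.c0 s B) t N n := by
  unfold Pool.Agent.J4.H39.CM.MTb singularTerm
  refine Finset.sum_congr rfl fun r _ => ?_
  rw [J_eq]
  rfl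

lemma corr_eq (s : ℤ) (B : Fin 4 → ℝ) (W N h : ℕ) : Pool.Agent.J4.H39.CM.SS s B W N h =
    correlation (Pool.Agent.J4.H39.CM.c1 s) (Pool.Agent.J4.H39.CM.c0 s B) W N h := by
  unfold Pool.Agent.J4.H39.CM.SS correlation
  rw [Pool.Agent.J4.H39.CM.Fr_sum, sum_range _ (by simp)]
  rfl

/-- linear equations: sums over the box -/
lemma sum_box (t N : ℕ) (P : (Fin t → ℕ) → Prop) [DecidablePred P] (F : (Fin t → ℕ) → ℂ)
    (hF : ∀ x, (∃ i, x i = 0) → F x = 0) :
    ∑ x ∈ Fintype.piFinset (fun _ : Fin t => Finset.range (N + 1)), (if P x then F x else 0) =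
      ∑ x ∈ (Fintype.piFinset (fun _ : Fin t => Finset.Icc 1 N)).filter P, F x := by
  classical
  rw [← Finset.sum_filter]
  symm
  refine Finset.sum_subset ?_ ?_
  · intro x hx
    rw [Finset.mem_filter, Fintype.mem_piFinset] at hx ⊢
    refine ⟨fun i => ?_, hx.2⟩
    have := Finset.mem_Icc.1 (hx.1 i)
    rw [Finset.mem_range]
    omega
  · intro x hx hx'
    rw [Finset.mem_filter, Fintype.mem_piFinset] at hx hx'
    apply hF
    by_contra hcon
    push Not at hcon
    apply hx'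
    refine ⟨fun i => ?_, hx.2⟩
    have h1 := Finset.mem_range.1 (hx.1 i)
    have h2 := hcon i
    rw [Finset.mem_Icc]
    omega

/-- **The circle method for the central values of quadratic Dirichlet `L`-functions.** There are functions `a_s, b_s`
on the rationals (`s = ±1`) with `|a_s(θ)| + |b_s(θ)| ≤ C_ε den(θ)^(-1+ε)`, `a_s(0) = 3/(2π²) ∏_p (1 - 1/(p(p+1)))`, and
`a_s(θ)` is the `θ`-th Fourier coefficient of the product of the local weights, such that:

(1) `∑_{q ≤ N} (central s q - model_W(q)) e(αq) = O(N^(1-1/(2m)))` for `W = N^(1/m)`, `m ≥ 4096`, uniformly in `α`;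

(2) `∑_{q ≤ N} central s q · e(-θq) = ∑_{q ≤ N} (a_s(θ) log q + b_s(θ)) + O(N^(1-1/8192))` for `den(θ)^4096 ≤ N`;

(3) bilinear forms: for all finitely supported `x, y` on the integers, the sum of `x_u y_v (central s - model_W)(u + v)`
over `1 ≤ u + v ≤ N` is `O(N^(1-1/(2m)) ‖x‖₂ ‖y‖₂)`;

(4) the correlations `∑_{q ≤ N - h} central s q · central s (q + h)` have a main term up to a power saving, in mean
square over `h ≤ N`; for almost all `h` they are `(C_z(h) + o(1)) (N - h) (log N)²` (`z → ∞`) with the products `C_z(h)` of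
the local correlations, which are `≥ c > 0` if `h ≢ 2 (mod 4)`; almost every such `h` is the difference of two conductors
(of characters of parity `s`) with non-vanishing central values;

(5) for `t ≥ 3` the sum of `∏ central s (q_i)` over `q_1 + … + q_t = N` equals an absolutely convergent series
(over denominators) up to `O(N^(t-1-1/(16384(t+1))))`, and it is `S(N) N^(t-1) (log N)^t / (t-1)!` up to
`O(N^(t-1) (1 + log N)^(t-1))` where `S(N)` is the (convergent) product of the local densities, `S(N) ≥ c > 0`; in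
particular every large `N` is a sum of `t` conductors with non-vanishing central value;

(6) for irrational `γ` which is not a Liouville number, `∑_{q ≤ N} central s q · e(γq) = O(N^(1-δ))`, and the first
moment over the `q ≤ N` with `γq + β` in `[u, v)` modulo `1` is `v - u` times the full first moment up to `O(N^(1-δ))`,
uniformly in `β, u, v`;

(7) linear equations `c_1 q_1 + … + c_t q_t = n`, `t ≥ 3`, between discriminants of arbitrary signs `σ_i` with `q_i` in
arbitrary residue classes `r_i` modulo `m_i`: the central values may be replaced by their models, uniformly in the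
coefficients `c_i ≠ 0`, in `n` and in the residue classes. -/
theorem result : ∃ a b : ℤ → ℚ → ℂ,
    (∀ s : ℤ, s = 1 ∨ s = -1 →
      ((∀ ε : ℝ, 0 < ε → ∃ C : ℝ, ∀ θ : ℚ, ‖a s θ‖ + ‖b s θ‖ ≤ C * (θ.den : ℝ) ^ (-1 + ε)) ∧
        a s 0 = ((3 / (2 * Real.pi ^ 2) * ∏' p : Nat.Primes, (1 - 1 / ((p : ℝ) * (p + 1))) : ℝ) : ℂ) ∧
        (∀ θ : ℚ, 0 ≤ θ → θ < 1 → Tendsto (fun z : ℕ =>
          ((64 * (∏ p ∈ oddPrimes z, p) ^ 2 * θ.den : ℕ) : ℂ)⁻¹ *
            ∑ q ∈ Finset.range (64 * (∏ p ∈ oddPrimes z, p) ^ 2 * θ.den),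
              (weights s z q : ℂ) * e (-((θ : ℝ) * q))) atTop (𝓝 (a s θ)))) ∧
      (∀ m : ℕ, 4096 ≤ m → ∃ C : ℝ, ∀ (N : ℕ) (α : ℝ), 1 ≤ N →
        ‖∑ q ∈ Finset.Icc 1 N, (central s q - model (a s) (b s) (root m N) q) * e (α * q)‖ ≤
          C * (N : ℝ) ^ (1 - 1 / (2 * m : ℝ))) ∧
      (∃ C : ℝ, ∀ (N : ℕ) (θ : ℚ), 1 ≤ N → 0 ≤ θ → θ < 1 → θ.den ^ 4096 ≤ N →
        ‖(∑ q ∈ Finset.Icc 1 N, central s q * e (-((θ : ℝ) * q))) -
          ∑ q ∈ Finset.Icc 1 N, (a s θ * Real.log q + b s θ)‖ ≤ C * (N : ℝ) ^ (1 - 1 / 8192 : ℝ)) ∧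
      (∀ m : ℕ, 4096 ≤ m → ∃ C : ℝ, ∀ (N : ℕ) (S T : Finset ℤ) (x y : ℤ → ℂ), 1 ≤ N →
        ‖∑ u ∈ S, ∑ v ∈ T, x u * y v * (if 1 ≤ u + v ∧ u + v ≤ N then
          central s (u + v).toNat - model (a s) (b s) (root m N) (u + v).toNat else 0)‖ ≤
          C * (N : ℝ) ^ (1 - 1 / (2 * m : ℝ)) * (√(∑ u ∈ S, ‖x u‖ ^ 2) * √(∑ v ∈ T, ‖y v‖ ^ 2))) ∧
      ((∃ C : ℝ, ∀ N : ℕ, 1 ≤ N → ∑ h ∈ Finset.Icc 1 N,
        ‖corrSum s N h - correlation (a s) (b s) (root 4096 N) N h‖ ^ 2 ≤ C * (N : ℝ) ^ (3 - 1 / 8192 : ℝ)) ∧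
        (∃ c : ℝ, 0 < c ∧ ∀ z h : ℕ, h % 4 ≠ 2 → c ≤ corrDensities s h z) ∧
        (∀ ε : ℝ, 0 < ε → ∃ z₀ : ℕ, ∀ z : ℕ, z₀ ≤ z → ∃ N₀ : ℕ, ∀ N : ℕ, N₀ ≤ N →
          ({h : ℕ | h ∈ Finset.Icc 1 N ∧ ε * (N * Real.log N ^ 2) <
            ‖corrSum s N h - ((corrDensities s h z * ((N - h : ℕ) : ℝ) * Real.log N ^ 2 : ℝ) : ℂ)‖}.ncard : ℝ) ≤
            ε * N) ∧
        (∀ ε : ℝ, 0 < ε → ∃ N₀ : ℕ, ∀ N : ℕ, N₀ ≤ N →
          ({h : ℕ | h ∈ Finset.Icc 1 N ∧ h % 4 ≠ 2 ∧ ∀ q : ℕ, central s q * central s (q + h) = 0}.ncard : ℝ) ≤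
            ε * N)) ∧
      (∀ t : ℕ, 3 ≤ t →
        (∀ N : ℕ, 1 ≤ N → Summable (fun n => ‖singularTerm (a s) (b s) t N n‖)) ∧
        (∃ C : ℝ, ∀ N : ℕ, 1 ≤ N →
          ‖(∑ x ∈ solutions t N, ∏ i, central s (x i)) - ∑' n, singularTerm (a s) (b s) t N n‖ ≤
            C * (N : ℝ) ^ ((t : ℝ) - 1 - 1 / (16384 * (t + 1)))) ∧
        (∃ (S : ℕ → ℝ) (c C : ℝ), 0 < c ∧
          (∀ N : ℕ, c ≤ S N ∧ S N ≤ C ∧ Tendsto (densities t s N) atTop (𝓝 (S N))) ∧
          ∀ N : ℕ, 1 ≤ N → ‖(∑ x ∈ solutions t N, ∏ i, central s (x i)) -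
            ((S N * (N : ℝ) ^ (t - 1) * Real.log N ^ t / (t - 1).factorial : ℝ) : ℂ)‖ ≤
            C * (N : ℝ) ^ (t - 1) * (1 + Real.log N) ^ (t - 1)) ∧
        (∀ᶠ N : ℕ in atTop, ∃ x ∈ solutions t N, ∀ i, central s (x i) ≠ 0)) ∧
      (∀ γ : ℝ, Irrational γ → ¬ Liouville γ → ∃ δ C : ℝ, 0 < δ ∧ ∀ N : ℕ, 1 ≤ N →
        ‖∑ q ∈ Finset.Icc 1 N, central s q * e (γ * q)‖ ≤ C * (N : ℝ) ^ (1 - δ) ∧
        ∀ β u v : ℝ, 0 ≤ u → u ≤ v → v ≤ 1 →
          ‖(∑ q ∈ (Finset.Icc 1 N).filter (fun q : ℕ => u ≤ Int.fract (γ * q + β) ∧ Int.fract (γ * q + β) < v),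
            central s q) - (v - u) * ∑ q ∈ Finset.Icc 1 N, central s q‖ ≤ C * (N : ℝ) ^ (1 - δ))) ∧
    (∀ t : ℕ, 3 ≤ t → ∃ C : ℝ, ∀ (N : ℕ) (σ c : Fin t → ℤ) (m r : Fin t → ℕ) (n : ℤ), 1 ≤ N →
      (∀ i, σ i = 1 ∨ σ i = -1) → (∀ i, c i ≠ 0) → (∀ i, r i < m i) →
      ‖∑ x ∈ (Fintype.piFinset (fun _ : Fin t => Finset.Icc 1 N)).filter
          (fun x => ∑ i, c i * (x i : ℤ) = n ∧ ∀ i, x i % m i = r i),
        (∏ i, central (σ i) (x i) -
          ∏ i, model (a (σ i)) (b (σ i)) (root (4096 * (t + 1)) N) (x i))‖ ≤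
        C * (N : ℝ) ^ ((t : ℝ) - 1 - 1 / (16384 * (t + 1)))) := by
  classical
  obtain ⟨B1, hB1⟩ := Pool.Agent.J4.H39.CM.good_ex 1 (Or.inl rfl)
  obtain ⟨B2, hB2⟩ := Pool.Agent.J4.H39.CM.good_ex (-1) (Or.inr rfl)
  obtain ⟨B, hBdef⟩ : ∃ B : ℤ → Fin 4 → ℝ, B = fun s => if s = 1 then B1 else B2 := ⟨_, rfl⟩
  have hb1 : Pool.Agent.J4.H39.CM.Good 1 (B 1) := by
    rw [hBdef]
    simpa using hB1
  have hb2 : Pool.Agent.J4.H39.CM.Good (-1) (B (-1)) := by
    rw [hBdef]
    simpa using hB2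
  have hG : ∀ s : ℤ, s = 1 ∨ s = -1 → Pool.Agent.J4.H39.CM.Good s (B s) := by
    rintro s (rfl | rfl)
    · exact hb1
    · exact hb2
  have hdt : ∀ t : ℕ, Pool.Agent.J4.H39.CM.dt t = 1 / (16384 * ((t : ℝ) + 1)) := by
    intro t
    unfold Pool.Agent.J4.H39.CM.dt Pool.Agent.J4.H39.CM.mt
    push_cast
    congr 1
    ring
  refine ⟨fun s => Pool.Agent.J4.H39.CM.c1 s, fun s => Pool.Agent.J4.H39.CM.c0 s (B s), fun s hs => ?_, ?_⟩
  · refine ⟨⟨fun ε hε => ?_, ?_, ?_⟩, ?_, ?_, ?_, ?_, ?_, ?_⟩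
    · obtain ⟨C, -, h⟩ := Pool.Agent.J4.H39.CM.c_bd s hs (B s) ε hε
      exact ⟨C, h⟩
    · exact Pool.Agent.J4.H39.CM.c1_zero s hs
    · intro θ h0 h1
      refine (Pool.Agent.J4.H39.CM.c1_mean s hs θ h0 h1).congr fun z => ?_
      simp only [weights_eq s hs]
      rfl
    · intro m hm
      obtain ⟨C, -, h⟩ := Pool.Agent.J4.H39.CM.fourier s hs (B s) (hG s hs) m hm
      refine ⟨C, fun N α hN => ?_⟩
      refine le_trans (le_of_eq ?_) (h N α hN)
      rw [sum_range]
      · congr 1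
        refine Finset.sum_congr rfl fun q hq => ?_
        have hq0 : q ≠ 0 := by
          have := Finset.mem_Icc.1 hq
          omega
        rw [central_eq, model_eq _ _ _ hq0]
        rfl
      · rw [← central_eq, central_zero]
        unfold Pool.Agent.J4.H39.CM.Gm
        simp
    · obtain ⟨C, -, h⟩ := Pool.Agent.J4.H39.CM.twist s hs (B s) (hG s hs)
      refine ⟨C, fun N θ hN h0 h1 hd => ?_⟩
      refine le_trans (le_of_eq ?_) (h N θ hN h0 h1 hd)
      rw [sum_range (fun q => Pool.Agent.J4.H39.CM.L1 s q * Pool.Agent.J4.H39.CM.e (-((θ : ℝ) * q)))]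
      · simp only [central_eq]
        rfl
      · rw [← central_eq, central_zero, zero_mul]
    · intro m hm
      obtain ⟨C, -, h⟩ := Pool.Agent.J4.H39.CM.bilin s hs (B s) (hG s hs) m hm
      refine ⟨C, fun N S T x y hN => ?_⟩
      refine le_trans (le_of_eq ?_) (h N S T x y hN)
      congr 1
      refine Finset.sum_congr rfl fun u _ => Finset.sum_congr rfl fun v _ => ?_
      congr 1
      by_cases h1 : 1 ≤ u + v ∧ u + v ≤ N
      · have h2 : 0 ≤ u + v ∧ u + v < (N + 1 : ℕ) := by omega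
        have h3 : (u + v).toNat ≠ 0 := by omega
        rw [if_pos h1, if_pos h2, central_eq, model_eq _ _ _ h3]
        rfl
      · rw [if_neg h1]
        split_ifs with h2
        · have h3 : (u + v).toNat = 0 := by omega
          rw [h3, ← central_eq, central_zero]
          unfold Pool.Agent.J4.H39.CM.Gm
          simp
        · rfl
    · refine ⟨?_, ?_, ?_, ?_⟩
      · obtain ⟨C, -, h⟩ := Pool.Agent.J4.H39.CM.corr_main s hs (B s) (hG s hs)
        refine ⟨C, fun N hN => ?_⟩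
        refine le_trans (le_of_eq ?_) (h N hN)
        refine Finset.sum_congr rfl fun k _ => ?_
        rw [corr_eq, corrSum_eq]
        rfl
      · obtain ⟨c, hc, h⟩ := Pool.Agent.J4.H39.CM.CZ_low s hs
        refine ⟨c, hc, fun z k hk => ?_⟩
        rw [corrDensities_eq s hs]
        exact h z k hk
      · intro ε hε
        obtain ⟨z₀, h⟩ := Pool.Agent.J4.H39.CM.corr_count s hs (B s) (hG s hs) ε hε
        refine ⟨z₀, fun z hz => ?_⟩
        obtain ⟨N₀, h⟩ := h z hz
        refine ⟨N₀, fun N hN => ?_⟩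
        have h1 := h N hN
        rw [← Set.ncard_coe_finset] at h1
        refine le_trans (le_of_eq ?_) h1
        congr 2
        ext k
        rw [Finset.coe_filter]
        simp only [Set.mem_ofPred_eq, corrDensities_eq s hs, corrSum_eq]
      · intro ε hε
        obtain ⟨N₀, h⟩ := Pool.Agent.J4.H39.CM.diff_nonvan s hs (B s) (hG s hs) ε hε
        refine ⟨N₀, fun N hN => ?_⟩
        have h1 := h N hN
        rw [← Set.ncard_coe_finset] at h1
        refine le_trans (le_of_eq ?_) h1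
        congr 2
        ext k
        rw [Finset.coe_filter]
        simp only [Set.mem_ofPred_eq, central_eq]
    · intro t ht
      have hS := Pool.Agent.J4.H39.CM.SN_low s hs t ht
      obtain ⟨c, hc, hlow⟩ := hS
      obtain ⟨C1, hC1, hup⟩ := Pool.Agent.J4.H39.CM.SN_bd s hs t ht
      obtain ⟨C2, hC2, hlead⟩ := Pool.Agent.J4.H39.CM.lead s hs (B s) (hG s hs) t ht
      refine ⟨fun N hN => ?_, ?_, ?_, ?_⟩
      · have h := Pool.Agent.J4.H39.CM.MT_summable s hs (B s) t ht N hN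
        simp only [term_eq] at h
        exact h
      · obtain ⟨C, -, h⟩ := Pool.Agent.J4.H39.CM.lin_one s hs (B s) (hG s hs) t ht
        refine ⟨C, fun N hN => ?_⟩
        have h1 := h N hN
        rw [central_sum, hdt] at h1
        unfold Pool.Agent.J4.H39.CM.MT at h1
        simp only [term_eq] at h1
        exact h1
      · refine ⟨fun N => (Pool.Agent.J4.H39.CM.SN s t N).re, c, C1 + C2, hc, fun N => ⟨(hlow N).1, ?_, ?_⟩,
          fun N hN => ?_⟩
        · have h1 := (le_abs_self _).trans (Complex.abs_re_le_norm (Pool.Agent.J4.H39.CM.SN s t N))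
          have h2 := hup N
          linarith
        · have h1 := Pool.Agent.J4.H39.CM.dens_tendsto s hs t ht N
          have h2 := (Complex.continuous_re.tendsto _).comp h1
          refine h2.congr fun z => ?_
          rw [densities_eq s hs]
          exact Complex.ofReal_re _
        · have h1 := hlead N hN
          rw [central_sum] at h1
          have h2 : Pool.Agent.J4.H39.CM.SN s t N = (((Pool.Agent.J4.H39.CM.SN s t N).re : ℝ) : ℂ) := by
            apply Complex.ext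
            · simp
            · rw [(hlow N).2]
              simp
          have h3 : Pool.Agent.J4.H39.CM.SN s t N * Pool.Agent.J4.H39.CM.KN t N =
              (((Pool.Agent.J4.H39.CM.SN s t N).re * (N : ℝ) ^ (t - 1) * Real.log N ^ t /
                (t - 1).factorial : ℝ) : ℂ) := by
            unfold Pool.Agent.J4.H39.CM.KN
            rw [h2]
            push_cast
            simp only [Complex.ofReal_re]
            ring
          rw [h3] at h1
          refine h1.trans ?_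
          have hNR : (1 : ℝ) ≤ N := by exact_mod_cast hN
          have hlN : 0 ≤ Real.log N := Real.log_nonneg hNR
          have h4 : 0 ≤ (N : ℝ) ^ (t - 1) * (1 + Real.log N) ^ (t - 1) := by positivity
          nlinarith
      · have h := Pool.Agent.J4.H39.CM.nonvan s hs (B s) (hG s hs) t ht
        refine h.mono fun N hN => ?_
        obtain ⟨x, h1, h2⟩ := hN
        refine ⟨x, ?_, fun i => ?_⟩
        · unfold solutions
          rw [Finset.mem_filter, Fintype.mem_piFinset]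
          refine ⟨fun i => ?_, h1⟩
          rw [Finset.mem_Icc]
          constructor
          · by_contra h3
            have h4 : x i = 0 := by omega
            apply h2 i
            rw [h4, ← central_eq, central_zero]
          · rw [← h1]
            exact Finset.single_le_sum (fun _ _ => Nat.zero_le _) (Finset.mem_univ i)
        · rw [central_eq]
          exact h2 i
    · intro γ hγ hL
      obtain ⟨n, δ, C, hδ, hC, h⟩ := Pool.Agent.J4.H39.CM.irr s hs (B s) (hG s hs) hγ hL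
      obtain ⟨δ', K, hδ', h'⟩ := Pool.Agent.J4.H39.CM.bohr s hs (B s) (hG s hs) hγ hL
      refine ⟨min δ δ', max C K, lt_min hδ hδ', fun N hN => ⟨?_, ?_⟩⟩
      · have h1 := (h N 1 hN le_rfl).1
        have hNR : (1 : ℝ) ≤ N := by exact_mod_cast hN
        rw [sum_range (fun q => Pool.Agent.J4.H39.CM.L1 s q *
          Pool.Agent.J4.H39.CM.e (((1 : ℕ) : ℝ) * γ * q)) (by rw [← central_eq, central_zero, zero_mul])] at h1
        simp only [central_eq]
        have h2 : ∑ q ∈ Finset.Icc 1 N, Pool.Agent.J4.H39.CM.L1 s q * e (γ * q) =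
            ∑ q ∈ Finset.Icc 1 N, Pool.Agent.J4.H39.CM.L1 s q *
              Pool.Agent.J4.H39.CM.e (((1 : ℕ) : ℝ) * γ * q) := by
          refine Finset.sum_congr rfl fun q _ => ?_
          rw [Nat.cast_one, one_mul]
          rfl
        rw [h2]
        refine h1.trans ?_
        rw [Nat.cast_one, one_pow, mul_one]
        exact mul_le_mul (le_max_left _ _) (Real.rpow_le_rpow_of_exponent_le hNR (by
          have := min_le_left δ δ'
          linarith)) (by positivity) (le_trans hC.le (le_max_left _ _))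
      · intro β u v hu huv hv
        have h1 := h' N β u v hN hu huv hv
        have hNR : (1 : ℝ) ≤ N := by exact_mod_cast hN
        rw [sum_range (fun q => if (u ≤ Int.fract (γ * (q : ℝ) + β) ∧ Int.fract (γ * (q : ℝ) + β) < v)
          then Pool.Agent.J4.H39.CM.L1 s q else 0) (by rw [← central_eq, central_zero]; simp),
          sum_range (fun q => Pool.Agent.J4.H39.CM.L1 s q) (by rw [← central_eq, central_zero])] at h1
        rw [Finset.sum_filter]
        simp only [central_eq]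
        refine h1.trans ?_
        exact mul_le_mul (le_max_right _ _) (Real.rpow_le_rpow_of_exponent_le hNR (by
          have := min_le_right δ δ'
          linarith)) (by positivity) (le_trans hC.le (le_max_left _ _))
  · intro t ht
    obtain ⟨C, -, h⟩ := Pool.Agent.J4.H39.CM.lin_mix B hb1 hb2 t ht
    refine ⟨C, fun N σ c m r n hN hσ hc hmr => ?_⟩
    have h1 := h N σ c m r n hN hσ hc hmr
    rw [sum_box t N (fun x => ∑ i, c i * (x i : ℤ) = n)
      (fun x => (∏ i, if x i % m i = r i then Pool.Agent.J4.H39.CM.L1 (σ i) (x i) else 0) -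
      ∏ i, (if x i % m i = r i then Pool.Agent.J4.H39.CM.Gm (Pool.Agent.J4.H39.CM.Fr (Pool.Agent.J4.H39.CM.cut
        (Pool.Agent.J4.H39.CM.mt t) N)) (Pool.Agent.J4.H39.CM.c1 (σ i))
        (Pool.Agent.J4.H39.CM.c0 (σ i) (B (σ i))) (x i) else 0)), hdt] at h1
    · refine le_trans (le_of_eq ?_) h1
      congr 1
      rw [← Finset.filter_filter]
      refine (Finset.sum_filter _ _).trans ?_
      refine Finset.sum_congr rfl fun x hx => ?_
      rw [Finset.mem_filter, Fintype.mem_piFinset] at hx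
      by_cases hx2 : ∀ i, x i % m i = r i
      · rw [if_pos hx2]
        simp only [central_eq]
        congr 1
        · refine Finset.prod_congr rfl fun i _ => ?_
          rw [if_pos (hx2 i)]
        · refine Finset.prod_congr rfl fun i _ => ?_
          have hx0 : x i ≠ 0 := by
            have := Finset.mem_Icc.1 (hx.1 i)
            omega
          rw [if_pos (hx2 i), model_eq _ _ _ hx0]
          rfl
      · rw [if_neg hx2]
        push Not at hx2
        obtain ⟨i, hi⟩ := hx2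
        rw [Finset.prod_eq_zero (Finset.mem_univ i) (if_neg hi),
          Finset.prod_eq_zero (Finset.mem_univ i) (if_neg hi), sub_zero]
    · rintro x ⟨i, hi⟩
      have e1 : (∏ i, if x i % m i = r i then Pool.Agent.J4.H39.CM.L1 (σ i) (x i) else 0) = 0 := by
        refine Finset.prod_eq_zero (Finset.mem_univ i) ?_
        rw [hi, ← central_eq, central_zero, ite_self]
      rw [e1, Finset.prod_eq_zero (Finset.mem_univ i), sub_zero]
      rw [hi]
      unfold Pool.Agent.J4.H39.CM.Gm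
      simp

end

end Pool.Agent.Results.MP_ea46f5_nt.CircleMethod
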