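import Pool.Agent.N879.QM.AllB
import Pool.Agent.J4.H50.EA.W5
import Pool.Agent.J4.H50.EH.D2

set_option autoImplicit false

/-!
# Moments of quadratic Dirichlet `L`-functions over thin families with prescribed local behaviour

Let `s = ±1`, `k ≥ 1` and `0 < θ ≤ 1`. There are `δ, c > 0` such that for all large `X`, uniformly in all finite sets `S` of
primes with `∏_{l ∈ S} l ≤ X^c` and all prescribed values `ε_l ∈ {1, -1, 0}` (`l ∈ S`), the shifted moment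

`∑_d ∏_{j ≤ k} L(1/2 + i α_j, χ_d)`

over the fundamental discriminants `d` of sign `s` with `1 < |d| < X` and `χ_d(l) = ε_l` for all `l ∈ S` (so `l` splits in
`ℚ(√d)`, is inert, or ramifies) is determined for almost all shift vectors `α` in the cube `[-X^θ, X^θ]^k`, with a RELATIVE
error `X^(-δ)`, after the removal of a set `E(X)` of conductors (which depends on `s, k, θ, X` only and is smaller than the
family by a factor `X^(-δ)`). The set `S` may consist of all primes up to a small multiple of `log X`, or of the prime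
divisors of a squarefree number `m ≤ X^c` (discriminants divisible by `m`); so the families may be as thin as
`X^(1 - c)`. The main term is the one of the recipe of Conrey, Farmer, Keating, Rubinstein and Snaith for this family: the
density of the family, `∏_{i ≤ j} ζ(1 + i α_i + i α_j)`, and an Euler product in which the averages at the primes `l ∈ S` are
replaced by the factors `∏_j (1 - ε_l l^(-1/2 - i α_j))⁻¹`.
-/

namespace Pool.Agent.Results.MP_ea46f5_nt.LocalConditions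

open Complex MeasureTheory

noncomputable section

/-- The characters `χ_d` of the fundamental discriminants `d` of sign `s` with `|d| = q` (`q ≥ 2`) which satisfy
`χ_d(l) = ε_l` for all `l ∈ S`: the real primitive characters modulo `q` with `χ(-1) = s` and these values. -/
def chars (s : ℤ) (S : Finset ℕ) (ε : ℕ → ℤ) (q : ℕ) : Set (DirichletCharacter ℂ q) :=
  {χ | (χ.IsPrimitive ∧ χ ^ 2 = 1 ∧ χ (-1) = (s : ℂ)) ∧ ∀ l ∈ S, χ (l : ZMod q) = (ε l : ℂ)}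

/-- The `L`-function of a Dirichlet character modulo `q ≥ 1` (the analytic continuation of `∑ χ(n) n^(-z)`). -/
def L {q : ℕ} (χ : DirichletCharacter ℂ q) (z : ℂ) : ℂ :=
  if h : q ≠ 0 then haveI : NeZero q := ⟨h⟩; DirichletCharacter.LFunction χ z else 0

/-- The number of these discriminants with `2 ≤ |d| < X`. -/
def count (s : ℤ) (S : Finset ℕ) (ε : ℕ → ℤ) (X : ℝ) : ℕ := ∑ q ∈ Finset.Ico 2 ⌈X⌉₊, (chars s S ε q).ncard

/-- The shifted moment: the sum of `∏_j L(1/2 + i α_j, χ_d)` over these `d` with `2 ≤ |d| < X` and `|d|` not in `E`. -/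
def moment {k : ℕ} (s : ℤ) (S : Finset ℕ) (ε : ℕ → ℤ) (X : ℝ) (E : Finset ℕ) (α : Fin k → ℝ) : ℂ :=
  ∑ q ∈ Finset.Ico 2 ⌈X⌉₊ \ E, ∑ᶠ χ ∈ chars s S ε q, ∏ j, L χ (1 / 2 + I * (α j : ℂ))

/-- The density of the fundamental discriminants `d` with `χ_d(l) = e`. -/
def density (l : ℕ) (e : ℤ) : ℝ := if e = 0 then 1 / (l + 1) else l / (2 * (l + 1))

/-- The expected size of the family: `(3/π²) X ∏_{l ∈ S} density(l, ε_l)`. -/
def size (S : Finset ℕ) (ε : ℕ → ℤ) (X : ℝ) : ℝ := 3 / Real.pi ^ 2 * X * ∏ l ∈ S, density l (ε l)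

/-- The local factor at the prime `p`: `∏_{i ≤ j} (1 - p^(-1 - z_i - z_j))`, multiplied for `p ∉ S` by
`(1/2 (∏_j (1 - p^(-1/2 - z_j))⁻¹ + ∏_j (1 + p^(-1/2 - z_j))⁻¹) + 1/p) (1 + 1/p)⁻¹`. -/
def localFactor {k : ℕ} (S : Finset ℕ) (z : Fin k → ℂ) (p : ℕ) : ℂ :=
  (∏ i, ∏ j ∈ Finset.Ici i, (1 - (p : ℂ) ^ (-(1 + z i + z j)))) *
    (if p ∈ S then 1 else
      (1 / 2 * ((∏ j, (1 - (p : ℂ) ^ (-(1 / 2 + z j)))⁻¹) + ∏ j, (1 + (p : ℂ) ^ (-(1 / 2 + z j)))⁻¹) + 1 / (p : ℂ)) *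
        (1 + 1 / (p : ℂ))⁻¹)

/-- `∏_{l ∈ S} ∏_j (1 - ε_l l^(-1/2 - z_j))⁻¹ · ∏_p localFactor(p) · ∏_{i ≤ j} ζ(1 + z_i + z_j)`. -/
def mainTerm {k : ℕ} (S : Finset ℕ) (ε : ℕ → ℤ) (z : Fin k → ℂ) : ℂ :=
  (∏ l ∈ S, ∏ j, (1 - (ε l : ℂ) * (l : ℂ) ^ (-(1 / 2 + z j)))⁻¹) * (∏' p : Nat.Primes, localFactor S z p) *
    ∏ i, ∏ j ∈ Finset.Ici i, riemannZeta (1 + z i + z j)

/-- The cube `[-A, A]^k`. -/
def cube (k : ℕ) (A : ℝ) : Set (Fin k → ℝ) := {α | ∀ j, |α j| ≤ A}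

lemma size_eq (S : Finset ℕ) (ε : ℕ → ℤ) (X : ℝ) :
    size S ε X = Pool.Agent.N879.QM.c0 * X * Pool.Agent.J4.H50.EH.rho S ε := rfl

lemma mainTerm_eq {k : ℕ} (S : Finset ℕ) (ε : ℕ → ℤ) (α : Fin k → ℝ) :
    mainTerm S ε (fun j => I * (α j : ℂ)) =
      Pool.Agent.J4.H50.EH.MT (Pool.Agent.J4.H50.EH.gD S) (Pool.Agent.N879.QM.im α) /
        Pool.Agent.J4.H50.EH.PU (Pool.Agent.J4.H50.EH.epC S ε) (Pool.Agent.J4.H50.EH.US k S) α := by
  have e1 : Pool.Agent.J4.H50.EH.PU (Pool.Agent.J4.H50.EH.epC S ε) (Pool.Agent.J4.H50.EH.US k S) α =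
      ∏ l ∈ S, ∏ j, (1 - (ε l : ℂ) * (l : ℂ) ^ (-(1 / 2 + I * (α j : ℂ)))) := by
    unfold Pool.Agent.J4.H50.EH.PU Pool.Agent.J4.H50.EH.US
    rw [Finset.prod_product]
    refine Finset.prod_congr rfl fun l hl => Finset.prod_congr rfl fun j _ => ?_
    unfold Pool.Agent.J4.H50.EH.epC Pool.Agent.N879.QM.pt
    rw [if_pos hl]
  have e2 : (∏ l ∈ S, ∏ j, (1 - (ε l : ℂ) * (l : ℂ) ^ (-(1 / 2 + I * (α j : ℂ))))⁻¹) =
      (∏ l ∈ S, ∏ j, (1 - (ε l : ℂ) * (l : ℂ) ^ (-(1 / 2 + I * (α j : ℂ)))))⁻¹ := by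
    simp only [Finset.prod_inv_distrib]
  have e3 : (∏' p : Nat.Primes, localFactor S (fun j => I * (α j : ℂ)) p) =
      Pool.Agent.J4.H50.EH.Ak (Pool.Agent.J4.H50.EH.gD S) (Pool.Agent.N879.QM.im α) := by
    unfold Pool.Agent.J4.H50.EH.Ak
    refine tprod_congr fun p => ?_
    unfold localFactor Pool.Agent.J4.H50.EH.loc Pool.Agent.N879.QM.im
    rw [← Pool.Agent.N879.QM.prod_Pr (fun i j => 1 - ((p : ℕ) : ℂ) ^ (-(1 + I * (α i : ℂ) + I * (α j : ℂ))))]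
    congr 1
    show _ = (((if (p : ℕ) ∈ S then (0 : ℝ) else ((p : ℕ) : ℝ) / ((p : ℕ) + 1) : ℝ)) : ℂ) * _ +
      (1 - (((if (p : ℕ) ∈ S then (0 : ℝ) else ((p : ℕ) : ℝ) / ((p : ℕ) + 1) : ℝ)) : ℂ))
    split_ifs
    · simp
    · have hp : (((p : ℕ) : ℕ) : ℂ) ≠ 0 := by exact_mod_cast p.2.ne_zero
      have hp1 : (((p : ℕ) : ℕ) : ℂ) + 1 ≠ 0 := by exact_mod_cast Nat.succ_ne_zero (p : ℕ)
      push_cast
      field_simp
      ring
  unfold mainTerm Pool.Agent.J4.H50.EH.MT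
  rw [e1, e2, e3, ← Pool.Agent.N879.QM.prod_Pr (fun i j => riemannZeta (1 + I * (α i : ℂ) + I * (α j : ℂ)))]
  unfold Pool.Agent.N879.QM.im
  rw [div_eq_mul_inv]
  ring

lemma chars_eq {s : ℤ} {q : ℕ} (S : Finset ℕ) (ε : ℕ → ℤ) (h : Pool.Agent.N879.QM.Is s q) :
    (Pool.Agent.J4.H50.EH.cl S ε s q = 1 ∧ chars s S ε q = {Pool.Agent.N879.QM.ch s q}) ∨
    (Pool.Agent.J4.H50.EH.cl S ε s q = 0 ∧ chars s S ε q = ∅) := by
  have h2 : {χ : DirichletCharacter ℂ q | χ.IsPrimitive ∧ χ ^ 2 = 1 ∧ χ (-1) = (s : ℂ)} =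
      {Pool.Agent.N879.QM.ch s q} := Pool.Agent.N879.QM.Fq_eq Pool.Agent.N879.QM.t_UNI h
  have h3 : ∀ χ : DirichletCharacter ℂ q, (χ.IsPrimitive ∧ χ ^ 2 = 1 ∧ χ (-1) = (s : ℂ)) ↔
      χ = Pool.Agent.N879.QM.ch s q := fun χ => by
    have := Set.ext_iff.1 h2 χ
    simpa using this
  unfold Pool.Agent.J4.H50.EH.cl
  by_cases hc : ∀ l ∈ S, Pool.Agent.N879.QM.vl s q l = (ε l : ℂ)
  · left
    refine ⟨if_pos hc, ?_⟩
    ext χ
    simp only [chars, Set.mem_ofPred_eq, Set.mem_singleton_iff, h3]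
    constructor
    · exact fun h => h.1
    · rintro rfl
      exact ⟨rfl, hc⟩
  · right
    refine ⟨if_neg hc, ?_⟩
    ext χ
    simp only [chars, Set.mem_ofPred_eq, Set.mem_empty_iff_false, h3, iff_false, not_and]
    rintro rfl h4
    exact hc h4

lemma chars_empty {s : ℤ} {q : ℕ} (hq : 2 ≤ q) (S : Finset ℕ) (ε : ℕ → ℤ) (h : ¬ Pool.Agent.N879.QM.Is s q) :
    chars s S ε q = ∅ := by
  have h2 : {χ : DirichletCharacter ℂ q | χ.IsPrimitive ∧ χ ^ 2 = 1 ∧ χ (-1) = (s : ℂ)} = ∅ :=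
    Pool.Agent.N879.QM.Fq_empty hq h
  rw [Set.eq_empty_iff_forall_notMem] at h2 ⊢
  exact fun χ hχ => h2 χ hχ.1

lemma moment_eq {k : ℕ} (s : ℤ) (S : Finset ℕ) (ε : ℕ → ℤ) (X : ℝ) (E : Finset ℕ) (α : Fin k → ℝ) :
    moment s S ε X E α = ∑ q ∈ Pool.Agent.N879.QM.Q s X \ E, Pool.Agent.J4.H50.EH.cl S ε s q *
      ∏ j, Pool.Agent.N879.QM.LL s q (Pool.Agent.N879.QM.pt (α j)) := by
  classical
  have h1 : Pool.Agent.N879.QM.Q s X \ E =
      (Finset.Ico 2 ⌈X⌉₊ \ E).filter (Pool.Agent.N879.QM.Is s) := by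
    ext q
    unfold Pool.Agent.N879.QM.Q
    simp only [Finset.mem_sdiff, Finset.mem_filter]
    tauto
  rw [h1, Finset.sum_filter]
  refine Finset.sum_congr rfl fun q hq => ?_
  have hq2 : 2 ≤ q := (Finset.mem_Ico.1 (Finset.mem_sdiff.1 hq).1).1
  split_ifs with h
  · rcases chars_eq S ε h with ⟨h2, h3⟩ | ⟨h2, h3⟩
    · rw [h3, h2, finsum_mem_singleton, one_mul]
      rfl
    · rw [h3, h2, finsum_mem_empty, zero_mul]
  · rw [chars_empty hq2 S ε h, finsum_mem_empty]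

lemma count_eq (s : ℤ) (S : Finset ℕ) (ε : ℕ → ℤ) (X : ℝ) :
    (count s S ε X : ℂ) = Pool.Agent.J4.H50.EA.Sc s X (Pool.Agent.J4.H50.EH.cl S ε s) 1 := by
  classical
  unfold count Pool.Agent.J4.H50.EA.Sc Pool.Agent.N879.QM.Q
  push_cast
  rw [Finset.sum_filter]
  refine Finset.sum_congr rfl fun q hq => ?_
  have hq2 : 2 ≤ q := (Finset.mem_Ico.1 hq).1
  have hv : Pool.Agent.N879.QM.vl s q 1 = 1 := by
    unfold Pool.Agent.N879.QM.vl
    rw [Nat.cast_one, map_one]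
  split_ifs with h
  · rcases chars_eq S ε h with ⟨h2, h3⟩ | ⟨h2, h3⟩
    · rw [h3, h2, hv, Set.ncard_singleton]
      norm_num
    · rw [h3, h2, Set.ncard_empty]
      norm_num
  · rw [chars_empty hq2 S ε h, Set.ncard_empty]
    norm_num

/-- For every `k ≥ 1`, every sign `s` and every `0 < θ ≤ 1` there are `δ, c > 0` and sets `E(X)` of conductors such that
for all large `X`, all finite sets `S` of primes with `∏_{l ∈ S} l ≤ X^c` and all `ε_l ∈ {1, -1, 0}` (`l ∈ S`):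

the number of the fundamental discriminants `d` of sign `s` with `1 < |d| < X` and `χ_d(l) = ε_l` for `l ∈ S` is
`size = (3/π²) X ∏_l density(l, ε_l)` up to `X^(-δ) size`; `E(X)` has at most `X^(-δ) size` elements; and the shift vectors
`α` in the cube `[-X^θ, X^θ]^k` for which the moment of `∏_j L(1/2 + i α_j, χ_d)` over these `d`, `|d| ∉ E(X)`, differs from
`size · mainTerm(iα)` by more than `X^(-δ) size` form a set of measure at most `X^(kθ - δ)`. -/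
theorem result (k : ℕ) (hk : 1 ≤ k) (s : ℤ) (hs : s = 1 ∨ s = -1) (θ : ℝ) (hθ : 0 < θ) (hθ1 : θ ≤ 1) :
    ∃ (E : ℝ → Finset ℕ) (δ c X₀ : ℝ), 0 < δ ∧ 0 < c ∧ ∀ X : ℝ, X₀ ≤ X → ∀ (S : Finset ℕ) (ε : ℕ → ℤ),
      (∀ l ∈ S, l.Prime) → (∀ l ∈ S, ε l = 1 ∨ ε l = -1 ∨ ε l = 0) → ((∏ l ∈ S, l : ℕ) : ℝ) ≤ X ^ c →
        |(count s S ε X : ℝ) - size S ε X| ≤ X ^ (-δ) * size S ε X ∧
        ((E X).card : ℝ) ≤ X ^ (-δ) * size S ε X ∧
        volume {α : Fin k → ℝ | α ∈ cube k (X ^ θ) ∧ X ^ (-δ) * size S ε X <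
          ‖moment s S ε X (E X) α - (size S ε X : ℂ) * mainTerm S ε (fun j => I * (α j : ℂ))‖} ≤
          ENNReal.ofReal (X ^ (k * θ - δ)) := by
  have hU := Pool.Agent.N879.QM.t_UNI
  have hA := Pool.Agent.N879.QM.t_AVG hU
  have hD := Pool.Agent.N879.QM.t_DIAG hA
  have hG := Pool.Agent.N879.QM.t_GK hU
  have hP1 := Pool.Agent.N879.QM.t_P1
  have hP2 := Pool.Agent.N879.QM.t_P2 hG
  have hM := Pool.Agent.N879.QM.t_MVG
  have hB := Pool.Agent.N879.QM.t_BLK hM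
  have hL := Pool.Agent.N879.QM.t_LSB
  have hO := Pool.Agent.N879.QM.t_ONE
  have hPV := Pool.Agent.N879.QM.t_PVI
  have hHB := Pool.Agent.N879.QM.t_HBG
  have hWQ := Pool.Agent.N879.QM.t_WQ
  have hMID := Pool.Agent.N879.QM.t_MID hB hHB hWQ
  have hBP := Pool.Agent.N879.QM.t_BIGP hB hL hPV
  have hB1 := Pool.Agent.N879.QM.t_BIG1P hB hO hPV
  have hAF := Pool.Agent.N879.QM.t_AFS
  have hC := Pool.Agent.N879.QM.t_CTS
  have hMB := Pool.Agent.N879.QM.t_MB hHB hB1 hAF hC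
  have hOP := Pool.Agent.N879.QM.t_OPB hP2 hMID hBP hAF hC
  have hR := Pool.Agent.N879.QM.t_RMV hP1
  have hTE := Pool.Agent.N879.QM.t_TEL
  have hE := Pool.Agent.N879.QM.t_EUL
  have hZR := Pool.Agent.N879.QM.t_ZR Pool.Agent.N879.QM.t_ZET hE
  have hFL := Pool.Agent.N879.QM.t_FL
  have hCO := Pool.Agent.N879.QM.t_COEF hFL
  obtain ⟨m, hm, δ₁, X₁, hδ₁, h1⟩ := Pool.Agent.J4.H50.EA.mainE hMB hR hP1 hOP hTE hC hD hCO hZR hE
    Pool.Agent.N879.QM.t_NS k s θ hk hs hθ hθ1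
  obtain ⟨η, c, X₂, hη, hc, hX₂, h2⟩ := Pool.Agent.J4.H50.EH.disc_unif hMB hP1 hOP hTE hC hA hFL
    Pool.Agent.N879.QM.t_ZET Pool.Agent.N879.QM.t_NS k θ hk hθ hθ1 m hm δ₁ hδ₁
  refine ⟨fun X => Pool.Agent.N879.QM.Ex s X (X ^ θ) (θ * (1 / m) / (8 * k)), η, c, max X₁ X₂, hη, hc,
    fun X hX S ε hS hε hP => ?_⟩
  obtain ⟨a1, a2, a3⟩ := h2 s X S ε hs ((le_max_right _ _).trans hX) hS hε hP
  have hcard := (h1 X ((le_max_left _ _).trans hX)).1
  refine ⟨?_, hcard.trans a2, ?_⟩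
  · rw [← count_eq, ← size_eq] at a1
    have e1 : (count s S ε X : ℂ) - ((size S ε X : ℝ) : ℂ) = (((count s S ε X : ℝ) - size S ε X : ℝ) : ℂ) := by
      push_cast
      rfl
    rw [e1, Complex.norm_real, Real.norm_eq_abs] at a1
    exact a1
  · refine le_trans (le_of_eq ?_) a3
    rw [← Pool.Agent.N879.QM.vol_mS]
    congr 1
    ext α
    simp only [Set.mem_ofPred_eq, moment_eq, mainTerm_eq, size_eq]
    rfl

end

end Pool.Agent.Results.MP_ea46f5_nt.LocalConditions
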