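import Pool.Agent.N879.QM.AllB
import Pool.Agent.J4.H50.EG.L8

set_option autoImplicit false

/-!
# Moments of quadratic Dirichlet `L`-functions of prime conductor

Let `s = ±1`, let `S` be a finite set of primes (it may be empty) and let `ε_l = ±1` for `l ∈ S`. We consider the
Legendre characters `χ_p = (·/p)` for the primes `p < X` with `p ≡ s (mod 4)` and `(l/p) = ε_l` for all `l ∈ S`; these
are characters `χ_d` of the fundamental discriminants `d = s p`. For every `k ≥ 1` and `0 < θ ≤ 1` the shifted moment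

`∑_p (log p) ∏_{j ≤ k} L(1/2 + i α_j, χ_p)`

is determined for almost all shift vectors `α` in the cube `[-X^θ, X^θ]^k`, with an error `X / (log X)^A` for every `A`,
after at most `X^(1 - δ)` conductors have been removed (the removed set depends on `s, k, θ, X` only). The main term is the
one of the recipe of Conrey, Farmer, Keating, Rubinstein and Snaith for this family: the sum of `log p` over the primes
(which is `~ X / 2^(|S| + 1)`), multiplied by `∏_{i ≤ j} ζ(1 + i α_i + i α_j)` and an Euler product.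
-/

namespace Pool.Agent.Results.MP_ea46f5_nt.PrimeConductors

open Complex MeasureTheory Filter Topology

noncomputable section

/-- The Legendre character `n ↦ (n/p)` modulo the prime `p` (`1` if `p` is not a prime). -/
def legendre (p : ℕ) : DirichletCharacter ℂ p :=
  if h : p.Prime then haveI := Fact.mk h; (quadraticChar (ZMod p)).ringHomComp (Int.castRingHom ℂ) else 1

/-- The `L`-function of a Dirichlet character modulo `q ≥ 1` (the analytic continuation of `∑ χ(n) n^(-z)`). -/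
def L {q : ℕ} (χ : DirichletCharacter ℂ q) (z : ℂ) : ℂ :=
  if h : q ≠ 0 then haveI : NeZero q := ⟨h⟩; DirichletCharacter.LFunction χ z else 0

open Classical in
/-- The primes `p < X` with `p ≡ s (mod 4)` and `(l/p) = ε_l` for all `l ∈ S`. -/
def primes (s : ℤ) (S : Finset ℕ) (ε : ℕ → ℤ) (X : ℝ) : Finset ℕ :=
  (Finset.range ⌈X⌉₊).filter (fun p => p.Prime ∧ (p : ℤ) ≡ s [ZMOD 4] ∧ ∀ l ∈ S, jacobiSym (l : ℤ) p = ε l)

/-- The shifted moment: the sum of `log p ∏_j L(1/2 + i α_j, χ_p)` over these primes outside of `E`. -/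
def moment {k : ℕ} (s : ℤ) (S : Finset ℕ) (ε : ℕ → ℤ) (X : ℝ) (E : Finset ℕ) (α : Fin k → ℝ) : ℂ :=
  ∑ p ∈ primes s S ε X \ E, (Real.log p : ℂ) * ∏ j, L (legendre p) (1 / 2 + I * (α j : ℂ))

/-- The sum of `log p` over these primes. -/
def theta (s : ℤ) (S : Finset ℕ) (ε : ℕ → ℤ) (X : ℝ) : ℝ := ∑ p ∈ primes s S ε X, Real.log p

/-- The local factor at the prime `p`: `∏_{i ≤ j} (1 - p^(-1 - z_i - z_j))`, multiplied for `p ∉ S` by the average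
`1/2 (∏_j (1 - p^(-1/2 - z_j))⁻¹ + ∏_j (1 + p^(-1/2 - z_j))⁻¹)`. -/
def localFactor {k : ℕ} (S : Finset ℕ) (z : Fin k → ℂ) (p : ℕ) : ℂ :=
  (∏ i, ∏ j ∈ Finset.Ici i, (1 - (p : ℂ) ^ (-(1 + z i + z j)))) *
    (if p ∈ S then 1 else
      1 / 2 * ((∏ j, (1 - (p : ℂ) ^ (-(1 / 2 + z j)))⁻¹) + ∏ j, (1 + (p : ℂ) ^ (-(1 / 2 + z j)))⁻¹))

/-- `∏_{l ∈ S} ∏_j (1 - ε_l l^(-1/2 - z_j))⁻¹ · ∏_p localFactor(p) · ∏_{i ≤ j} ζ(1 + z_i + z_j)`. -/
def mainTerm {k : ℕ} (S : Finset ℕ) (ε : ℕ → ℤ) (z : Fin k → ℂ) : ℂ :=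
  (∏ l ∈ S, ∏ j, (1 - (ε l : ℂ) * (l : ℂ) ^ (-(1 / 2 + z j)))⁻¹) * (∏' p : Nat.Primes, localFactor S z p) *
    ∏ i, ∏ j ∈ Finset.Ici i, riemannZeta (1 + z i + z j)

/-- The cube `[-A, A]^k`. -/
def cube (k : ℕ) (A : ℝ) : Set (Fin k → ℝ) := {α | ∀ j, |α j| ≤ A}

lemma primes_eq (s : ℤ) (S : Finset ℕ) (ε : ℕ → ℤ) (X : ℝ) : primes s S ε X = Pool.Agent.J4.H50.EG.PF S ε s X := rfl

lemma theta_eq (s : ℤ) (S : Finset ℕ) (ε : ℕ → ℤ) (X : ℝ) : theta s S ε X = Pool.Agent.J4.H50.EG.MS S ε s X := rfl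

lemma mainTerm_eq {k : ℕ} (S : Finset ℕ) (ε : ℕ → ℤ) (α : Fin k → ℝ) :
    mainTerm S ε (fun j => I * (α j : ℂ)) =
      Pool.Agent.J4.H50.EG.MT (Pool.Agent.J4.H50.EG.gP S) (Pool.Agent.N879.QM.im α) /
        Pool.Agent.J4.H50.EG.PU (Pool.Agent.J4.H50.EG.epC S ε) (Pool.Agent.J4.H50.EG.US k S) α := by
  have e1 : Pool.Agent.J4.H50.EG.PU (Pool.Agent.J4.H50.EG.epC S ε) (Pool.Agent.J4.H50.EG.US k S) α =
      ∏ l ∈ S, ∏ j, (1 - (ε l : ℂ) * (l : ℂ) ^ (-(1 / 2 + I * (α j : ℂ)))) := by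
    unfold Pool.Agent.J4.H50.EG.PU Pool.Agent.J4.H50.EG.US
    rw [Finset.prod_product]
    refine Finset.prod_congr rfl fun l hl => Finset.prod_congr rfl fun j _ => ?_
    unfold Pool.Agent.J4.H50.EG.epC Pool.Agent.N879.QM.pt
    rw [if_pos hl]
  have e2 : (∏ l ∈ S, ∏ j, (1 - (ε l : ℂ) * (l : ℂ) ^ (-(1 / 2 + I * (α j : ℂ))))⁻¹) =
      (∏ l ∈ S, ∏ j, (1 - (ε l : ℂ) * (l : ℂ) ^ (-(1 / 2 + I * (α j : ℂ)))))⁻¹ := by
    simp only [Finset.prod_inv_distrib]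
  have e3 : (∏' p : Nat.Primes, localFactor S (fun j => I * (α j : ℂ)) p) =
      Pool.Agent.J4.H50.EG.Ak (Pool.Agent.J4.H50.EG.gP S) (Pool.Agent.N879.QM.im α) := by
    unfold Pool.Agent.J4.H50.EG.Ak
    refine tprod_congr fun p => ?_
    unfold localFactor Pool.Agent.J4.H50.EG.loc Pool.Agent.N879.QM.im
    rw [← Pool.Agent.N879.QM.prod_Pr (fun i j => 1 - ((p : ℕ) : ℂ) ^ (-(1 + I * (α i : ℂ) + I * (α j : ℂ))))]
    congr 1
    show _ = (((if (p : ℕ) ∈ S then (0 : ℝ) else 1 : ℝ)) : ℂ) * _ + (1 - (((if (p : ℕ) ∈ S then (0 : ℝ) else 1 : ℝ)) : ℂ))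
    split_ifs <;> simp
  unfold mainTerm Pool.Agent.J4.H50.EG.MT
  rw [e1, e2, e3, ← Pool.Agent.N879.QM.prod_Pr (fun i j => riemannZeta (1 + I * (α i : ℂ) + I * (α j : ℂ)))]
  unfold Pool.Agent.N879.QM.im
  rw [div_eq_mul_inv]
  ring

lemma legendre_eq {s : ℤ} (hs : s = 1 ∨ s = -1) {p : ℕ} (hp : p.Prime) (h : (p : ℤ) % 4 = s % 4) :
    Pool.Agent.N879.QM.ch s p = legendre p := by
  refine Pool.Agent.N879.QM.uni_ext hp.ne_zero _ _ fun n _ => ?_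
  have h1 : Pool.Agent.N879.QM.ch s p (n : ZMod p) = ((jacobiSym (n : ℤ) p : ℤ) : ℂ) :=
    Pool.Agent.J4.H50.EG.vl_prime hs hp h n
  rw [h1]
  unfold legendre
  rw [dif_pos hp]
  have hF : Fact p.Prime := ⟨hp⟩
  show _ = (Int.castRingHom ℂ) (quadraticChar (ZMod p) (n : ZMod p))
  rw [← jacobiSym.legendreSym.to_jacobiSym]
  unfold legendreSym
  simp

lemma moment_eq {k : ℕ} {s : ℤ} (hs : s = 1 ∨ s = -1) (S : Finset ℕ) (ε : ℕ → ℤ) {X : ℝ} (hX : 1 < X) (θ : ℝ) (m : ℕ)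
    (α : Fin k → ℝ) :
    moment s S ε X (Pool.Agent.N879.QM.Ex s X (X ^ θ) (θ * (1 / m) / (8 * k))) α =
      (Real.log X : ℂ) * Pool.Agent.J4.H50.EA.FW k s θ m (Pool.Agent.J4.H50.EG.cpw S ε s X) X α := by
  classical
  have hL : (Real.log X : ℂ) ≠ 0 := by
    exact_mod_cast (Real.log_pos hX).ne'
  obtain ⟨E, hE⟩ : ∃ E : Finset ℕ, E = Pool.Agent.N879.QM.Ex s X (X ^ θ) (θ * (1 / m) / (8 * k)) := ⟨_, rfl⟩
  unfold moment Pool.Agent.J4.H50.EA.FW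
  rw [← hE, primes_eq, Finset.mul_sum]
  have hsub : Pool.Agent.J4.H50.EG.PF S ε s X \ E ⊆ Pool.Agent.N879.QM.Q s X \ E := by
    refine Finset.sdiff_subset_sdiff (fun p hp => ?_) le_rfl
    obtain ⟨h1, h2, h3, -⟩ := Pool.Agent.J4.H50.EG.mem_PF.1 hp
    unfold Pool.Agent.N879.QM.Q
    rw [Finset.mem_filter, Finset.mem_Ico, Nat.lt_ceil]
    exact ⟨⟨h2.two_le, h1⟩, (Pool.Agent.J4.H50.EG.Is_prime hs h2).2 h3⟩
  rw [← Finset.sum_subset hsub]
  · refine Finset.sum_congr rfl fun p hp => ?_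
    obtain ⟨h1, h2, h3, h4⟩ := Pool.Agent.J4.H50.EG.mem_PF.1 (Finset.mem_sdiff.1 hp).1
    have e1 : Pool.Agent.J4.H50.EG.cpw S ε s X p = ((Real.log p / Real.log X : ℝ) : ℂ) := by
      unfold Pool.Agent.J4.H50.EG.cpw
      rw [if_pos ⟨h2, h1, fun l hl => by rw [Pool.Agent.J4.H50.EG.vl_prime hs h2 h3, h4 l hl]⟩]
    have e2 : ∀ j, L (legendre p) (1 / 2 + I * (α j : ℂ)) =
        Pool.Agent.N879.QM.LL s p (Pool.Agent.N879.QM.pt (α j)) := by
      intro j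
      unfold L Pool.Agent.N879.QM.LL Pool.Agent.N879.QM.pt
      rw [dif_pos h2.ne_zero, dif_pos h2.ne_zero, legendre_eq hs h2 h3]
    rw [e1, Finset.prod_congr rfl fun j _ => e2 j, ← mul_assoc]
    congr 1
    rw [Complex.ofReal_div]
    field_simp
  · intro p hp hnp
    have hz : Pool.Agent.J4.H50.EG.cpw S ε s X p = 0 := by
      unfold Pool.Agent.J4.H50.EG.cpw
      rw [if_neg]
      rintro ⟨h1, h2, h3⟩
      have h4 : (p : ℤ) % 4 = s % 4 := (Pool.Agent.J4.H50.EG.Is_prime hs h1).1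
        (Pool.Agent.N879.QM.Q_is (Finset.mem_sdiff.1 hp).1).1
      refine hnp (Finset.mem_sdiff.2 ⟨Pool.Agent.J4.H50.EG.mem_PF.2 ⟨h2, h1, h4, fun l hl => ?_⟩,
        (Finset.mem_sdiff.1 hp).2⟩)
      have h5 := h3 l hl
      rw [Pool.Agent.J4.H50.EG.vl_prime hs h1 h4] at h5
      exact_mod_cast h5
    rw [hz, zero_mul, mul_zero]

/-- For every `k ≥ 1`, every sign `s` and every `0 < θ ≤ 1` there are sets `E(X)` of at most `X^(1 - δ)` conductors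
(`X ≥ X₀`) such that for every finite set `S` of primes and all `ε_l = ±1` (`l ∈ S`) the following holds. The sum `theta`
of `log p` over the primes `p < X` with `p ≡ s (mod 4)` and `(l/p) = ε_l` for `l ∈ S` is `~ X / 2^(|S| + 1)`; and for every
`A` and all large `X`, the shift vectors `α` in the cube `[-X^θ, X^θ]^k` for which the moment of
`log p ∏_j L(1/2 + i α_j, χ_p)` over these primes `p ∉ E(X)` differs from `theta · mainTerm(iα)` by more than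
`X / (log X)^A` form a set of measure at most `X^(kθ) / (log X)^A`. -/
theorem result (k : ℕ) (hk : 1 ≤ k) (s : ℤ) (hs : s = 1 ∨ s = -1) (θ : ℝ) (hθ : 0 < θ) (hθ1 : θ ≤ 1) :
    ∃ (E : ℝ → Finset ℕ) (δ X₀ : ℝ), 0 < δ ∧ (∀ X : ℝ, X₀ ≤ X → ((E X).card : ℝ) ≤ X ^ (1 - δ)) ∧
      ∀ (S : Finset ℕ) (ε : ℕ → ℤ), (∀ l ∈ S, l.Prime) → (∀ l ∈ S, ε l = 1 ∨ ε l = -1) →
        Tendsto (fun X : ℝ => theta s S ε X / X) atTop (𝓝 (1 / 2 ^ (S.card + 1))) ∧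
        ∀ A : ℕ, ∃ X₁ : ℝ, ∀ X : ℝ, X₁ ≤ X →
          volume {α : Fin k → ℝ | α ∈ cube k (X ^ θ) ∧ X / Real.log X ^ A <
            ‖moment s S ε X (E X) α - (theta s S ε X : ℂ) * mainTerm S ε (fun j => I * (α j : ℂ))‖} ≤
            ENNReal.ofReal (X ^ (k * θ) / Real.log X ^ A) := by
  have hU := Pool.Agent.N879.QM.t_UNI
  have hA := Pool.Agent.N879.QM.t_AVG hU
  have hD := Pool.Agent.N879.QM.t_DIAG hA
  have hG := Pool.Agent.N879.QM.t_GK hU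
  have hP1 := Pool.Agent.N879.QM.t_P1
  have hP2 := Pool.Agent.N879.QM.t_P2 hG
  have hM := Pool.Agent.N879.QM.t_MVG
  have hB := Pool.Agent.N879.QM.t_BLK hM
  have hL := Pool.Agent.N879.QM.t_LSB
  have hO := Pool.Agent.N879.QM.t_ONE
  have hPV := Pool.Agent.N879.QM.t_PVI
  have hHB := Pool.Agent.N879.QM.t_HBG
  have hWQ := Pool.Agent.N879.QM.t_WQ
  have hMID := Pool.Agent.N879.QM.t_MID hB hHB hWQ
  have hBP := Pool.Agent.N879.QM.t_BIGP hB hL hPV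
  have hB1 := Pool.Agent.N879.QM.t_BIG1P hB hO hPV
  have hAF := Pool.Agent.N879.QM.t_AFS
  have hC := Pool.Agent.N879.QM.t_CTS
  have hMB := Pool.Agent.N879.QM.t_MB hHB hB1 hAF hC
  have hOP := Pool.Agent.N879.QM.t_OPB hP2 hMID hBP hAF hC
  have hR := Pool.Agent.N879.QM.t_RMV hP1
  have hTE := Pool.Agent.N879.QM.t_TEL
  have hE := Pool.Agent.N879.QM.t_EUL
  have hZR := Pool.Agent.N879.QM.t_ZR Pool.Agent.N879.QM.t_ZET hE
  have hFL := Pool.Agent.N879.QM.t_FL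
  have hCO := Pool.Agent.N879.QM.t_COEF hFL
  obtain ⟨m, hm, δ₁, X₁, hδ₁, h1⟩ := Pool.Agent.J4.H50.EA.mainE hMB hR hP1 hOP hTE hC hD hCO hZR hE
    Pool.Agent.N879.QM.t_NS k s θ hk hs hθ hθ1
  refine ⟨fun X => Pool.Agent.N879.QM.Ex s X (X ^ θ) (θ * (1 / m) / (8 * k)), δ₁, X₁, hδ₁, fun X hX => (h1 X hX).1,
    fun S ε hS hε => ⟨?_, fun A => ?_⟩⟩
  · exact Pool.Agent.J4.H50.EG.MS_lim S ε hS hε s hs
  · obtain ⟨X₂, h2⟩ := Pool.Agent.J4.H50.EG.prime_fin hMB hP1 hOP hTE hC hA hFL Pool.Agent.N879.QM.t_ZET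
      Pool.Agent.N879.QM.t_NS S hS ε hε k θ hk hθ hθ1 m hm A
    refine ⟨max X₂ 2, fun X hX => ?_⟩
    have hX1 : 1 < X := by
      have := (le_max_right X₂ 2).trans hX
      linarith
    refine le_trans (le_of_eq ?_) (h2 s X hs ((le_max_left _ _).trans hX))
    rw [← Pool.Agent.N879.QM.vol_mS]
    congr 1
    ext α
    simp only [Set.mem_ofPred_eq, moment_eq hs S ε hX1, mainTerm_eq, theta_eq]
    rfl

end

end Pool.Agent.Results.MP_ea46f5_nt.PrimeConductors
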